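import Pool.Agent.Helper1.FG.Main

/-!
# Arbitrary big points (MP_6ec8e4_ag)
-/

namespace Pool.Agent.Helper1.FI

open Pool.Agent.Helper1.FH

variable {ι : Type*} [Fintype ι] [DecidableEq ι]

/-- trace of an on-item of multiplicity `> M` -/
def Item.btr (M : ℕ) : Item → ℕ
  | .on m g => if M < m then (Item.on m g).tr else 0
  | .off _ => 0

/-- 1 for on-items of multiplicity `> M` -/
def Item.bn (M : ℕ) : Item → ℕ
  | .on m _ => if M < m then 1 else 0
  | .off _ => 0

/-- validity with big on-items -/
def Item.okB (M : ℕ) : Item → Prop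
  | .on m g => g ≤ m
  | .off m => m ≤ M

/-- all items are valid -/
def OkB (M : ℕ) (x : ι → Item) : Prop := ∀ k, Item.okB M (x k)

lemma ok_of_okB {M : ℕ} {x : Item} (h : Item.okB M x) : x.ok (x.tr + 1 + M) := by
  cases x with
  | on m g =>
    simp only [Item.okB] at h
    simp only [Item.ok, Item.tr]
    split_ifs <;> omega
  | off m =>
    simp only [Item.okB] at h
    simp only [Item.ok]
    omega

lemma ok_mono {M M' : ℕ} (hM : M ≤ M') {x : Item} (h : x.ok M) : x.ok M' := by
  cases x with
  | on m g => simp only [Item.ok] at *; omega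
  | off m => simp only [Item.ok] at *; omega

lemma okB_shift {M : ℕ} {x : Item} (h : Item.okB M x) : Item.okB M x.shift := by
  cases x with
  | on m g =>
    simp only [Item.okB, Item.shift] at *
    omega
  | off m => exact h

lemma btr_shift {M : ℕ} (hM : 1 ≤ M) {x : Item} (h : Item.okB M x) :
    Item.btr M x.shift + Item.bn M x ≤ Item.btr M x := by
  cases x with
  | on m g =>
    simp only [Item.okB] at h
    simp only [Item.btr, Item.bn, Item.shift, Item.tr]
    split_ifs <;> omega
  | off m => simp [Item.btr, Item.bn, Item.shift]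

lemma tr_le_small {M : ℕ} {x : Item} (h : Item.okB M x) : x.tr ≤ M * x.act + Item.btr M x := by
  have h0 : 0 < x.tr → x.act = 1 := by
    intro h1
    simp [Item.act, h1]
  cases x with
  | on m g =>
    simp only [Item.okB] at h
    by_cases h1 : M < m
    · simp [Item.btr, h1]
    · rcases Nat.eq_zero_or_pos (Item.on m g).tr with h2 | h2
      · omega
      · rw [h0 h2]
        simp only [Item.tr, Item.btr, if_neg h1]
        split_ifs <;> omega
  | off m => simp [Item.tr]

lemma ok_of_bn {M : ℕ} {x : Item} (h : Item.okB M x) (h1 : Item.bn M x = 0) : x.ok M := by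
  cases x with
  | on m g =>
    simp only [Item.okB] at h
    simp only [Item.bn] at h1
    simp only [Item.ok]
    by_contra h2
    have h3 : M < m := by omega
    simp [h3] at h1
  | off m => exact h

omit [Fintype ι] [DecidableEq ι] in
lemma OkB.sh {M : ℕ} {x : ι → Item} (h : OkB M x) : OkB M (sh x) := fun k => okB_shift (h k)

omit [Fintype ι] in
lemma OkB.update {M : ℕ} {x : ι → Item} (h : OkB M x) {k : ι} {z : Item} (hz : Item.okB M z) :
    OkB M (Function.update x k z) := by
  intro l
  by_cases hl : l = k
  · subst hl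
    rwa [Function.update_self]
  · rw [Function.update_of_ne hl]
    exact h l

omit [DecidableEq ι] in
lemma OkB.ok {M : ℕ} {x : ι → Item} (h : OkB M x) : Ok (tot Item.tr x + 1 + M) x := by
  intro k
  have h1 : (x k).tr ≤ tot Item.tr x :=
    Finset.single_le_sum (f := fun k => (x k).tr) (fun _ _ => Nat.zero_le _) (Finset.mem_univ k)
  exact ok_mono (by omega) (ok_of_okB (h k))

omit [DecidableEq ι] in
lemma OkB.ok_of_bn {M : ℕ} {x : ι → Item} (h : OkB M x) (h1 : tot (Item.bn M) x = 0) : Ok M x := by
  intro k
  apply FI.ok_of_bn (h k)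
  have h2 : Item.bn M (x k) ≤ tot (Item.bn M) x :=
    Finset.single_le_sum (f := fun k => Item.bn M (x k)) (fun _ _ => Nat.zero_le _) (Finset.mem_univ k)
  omega

lemma fat_toG (x : Item) : (FG.toG x).fat = x.fat := by
  cases x <;> rfl

/-- the finishing lemma without bounds for the on-items -/
lemma finishB {M n : ℕ} {x : ι → Item} (hx : OkB M x) (hf : tot Item.fat x = 0) (htr : tot Item.tr x ≤ n)
    (hsz : T n ≤ tot Item.sz x) : Inj n x := by
  apply FG.inj_of_injG
  apply FG.finishing (M := tot Item.tr x + 1 + M) n _ _ (fun k => ok_toG (hx.ok k)) ?_ rfl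
  · rw [tr_toG]
    exact htr
  · rw [tot_sz_toG hx.ok]
    exact hsz
  · have h1 : FG.tot FG.GI.fat (fun k => FG.toG (x k)) = tot Item.fat x :=
      Finset.sum_congr rfl (fun k _ => fat_toG (x k))
    rw [h1]
    exact hf

/-- **Exact step** in the presence of big on-items -/
theorem exact_step {M n : ℕ} (hM : 1 ≤ M) :
    ∀ q : ℕ, ∀ z : ι → Item, OkB M z → tot Item.fat z = q → tot (Item.btr M) z + M * M + 2 * M ≤ n + 1 →
      tot Item.tr z ≤ n + 1 → T (n + 1) ≤ tot Item.sz z →
      (∀ y : ι → Item, OkB M y → tot Item.tr y ≤ n → T n ≤ tot Item.sz y →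
        tot (Item.btr M) y + tot (Item.bn M) z ≤ tot (Item.btr M) z →
        (tot (Item.bn M) z = 0 → Ok M y ∧ tot Item.act y + tot Item.tr y ≤ n + M + 2 ∧
          n + M * tot Item.tr y ≤ M * n + M * (M + 2)) → Inj n y) →
      Inj (n + 1) z := by
  intro q
  induction q with
  | zero =>
    intro z hz hq _ htr hsz _
    exact finishB hz hq htr hsz
  | succ q ihq =>
    intro z hz hq hb htr hsz IH
    obtain ⟨k, hk0⟩ := exists_pos (f := Item.fat) (x := z) (by omega)
    obtain ⟨m, hm, hk⟩ := off_of_fat hk0
    have hmM : m ≤ M := by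
      have := hz k
      rw [hk] at this
      exact this
    by_cases hfit : tot Item.tr z + m ≤ n + 1
    · apply insert_on hk
      have h1 := tot_update (Item.btr M) z k (.on m 0)
      have h2 := tot_update (Item.bn M) z k (.on m 0)
      rw [hk] at h1 h2
      have h3 : Item.btr M (.on m 0) = 0 := by simp [Item.btr, show ¬ M < m by omega]
      have h4 : Item.bn M (.on m 0) = 0 := by simp [Item.bn, show ¬ M < m by omega]
      have h5 : Item.btr M (.off m) = 0 := rfl
      have h6 : Item.bn M (.off m) = 0 := rfl
      apply ihq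
      · exact hz.update (by simp only [Item.okB]; omega)
      · have := fat_ins hk hm
        omega
      · omega
      · rw [tr_ins hk]
        exact hfit
      · rw [sz_ins hk]
        exact hsz
      · intro y g1 g2 g3 g4 g5
        apply IH y g1 g2 g3
        · omega
        · intro h7
          exact g5 (by omega)
    · have hT := T_succ n
      have hle : tot Item.tr z ≤ M * tot Item.act z + tot (Item.btr M) z := by
        unfold tot
        rw [Finset.mul_sum, ← Finset.sum_add_distrib]
        exact Finset.sum_le_sum (fun k _ => tr_le_small (hz k))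
      have hact : M < tot Item.act z := by
        by_contra h12
        have h13 : M * tot Item.act z ≤ M * M := Nat.mul_le_mul le_rfl (by omega)
        omega
      have htrsh := tot_tr_sh z
      have hszsh := tot_sz_sh hz.ok
      have hactsh := tot_act_sh z
      have hbtr : tot (Item.btr M) (sh z) + tot (Item.bn M) z ≤ tot (Item.btr M) z := by
        unfold tot sh
        rw [← Finset.sum_add_distrib]
        exact Finset.sum_le_sum (fun k _ => btr_shift hM (hz k))
      have hg : n + 1 - tot Item.tr z < m := by omega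
      set g := n + 1 - tot Item.tr z with hgdef
      apply diff_horace hk (g := g) hg.le
      · show n + 1 ≤ tot Item.tr z + g
        omega
      · show Inj n (Function.update (sh z) k (.on m g))
        have h4 := tr_dif hk hg
        have h5 := sz_dif hk hg
        have h10 := act_dif hk (g := g)
        have h1 := tot_update (Item.btr M) (sh z) k (.on m g)
        have h3 : Item.btr M (.on m g) = 0 := by simp [Item.btr, show ¬ M < m by omega]
        have h6 : Item.btr M (sh z k) = 0 := by simp [sh, hk, Item.shift, Item.btr]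
        apply IH
        · exact hz.sh.update (by simp only [Item.okB]; omega)
        · omega
        · omega
        · omega
        · intro hbn
          have hok := hz.ok_of_bn hbn
          refine ⟨hok.sh.update (by simp only [Item.ok]; omega), by omega, ?_⟩
          have htrle := tot_tr_le hok
          rw [h4]
          have e1 : M * tot Item.tr (sh z) + M * tot Item.act z ≤ M * (n + 1) := by
            rw [← mul_add]
            exact Nat.mul_le_mul le_rfl (by omega)
          have e2 : M * (n + 1) = M * n + M := by ring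
          have e3 : M * (M + 2) = M * M + 2 * M := by ring
          have e6 : M * (tot Item.tr (sh z) + m) = M * tot Item.tr (sh z) + M * m := by ring
          have e7 : M * m ≤ M * M := Nat.mul_le_mul le_rfl hmM
          omega

/-- degrees at least `8 M ^ 2 - 1` -/
theorem high_start {M n : ℕ} (hM : 2 ≤ M) (hn : 8 * M ^ 2 ≤ n + 1) {x : ι → Item} (hx : Ok M x)
    (htr : tot Item.tr x ≤ n) (hsz : T n ≤ tot Item.sz x) (hact : tot Item.act x + tot Item.tr x ≤ n + M + 2)
    (hgap : n + M * tot Item.tr x ≤ M * n + M * (M + 2)) : Inj n x := by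
  have h5 : 5 * M ^ 2 ≤ n := by nlinarith
  apply high hM (h := hb M) (fun n x h1 _ h2 h3 h4 => TI n x h1 h2 h3 h4)
    (fun n x h1 h2 h3 => TII (by omega) n x h1 h2 h3) n h5
  refine ⟨hx, htr, hsz, hact, hgap, ?_⟩
  have h1 : 2 * T n ≤ W x := by
    unfold W
    omega
  have h2 : 2 * M ^ 2 * (2 * T n) ≤ 2 * M ^ 2 * W x := Nat.mul_le_mul le_rfl h1
  have h3 : 2 * M ^ 2 * (2 * T n) = 2 * (2 * M ^ 2) * T n := by ring
  obtain ⟨a, rfl⟩ : ∃ a, M = a + 2 := ⟨M - 2, by omega⟩
  obtain ⟨t, rfl⟩ : ∃ t, n = 8 * a ^ 2 + 32 * a + 31 + t := by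
    refine ⟨n - (8 * a ^ 2 + 32 * a + 31), ?_⟩
    have : 8 * (a + 2) ^ 2 = 8 * a ^ 2 + 32 * a + 32 := by ring
    omega
  have h4 : 8 * (a + 2) ^ 2 * hb (a + 2) + (a + 2) ^ 3 + 2 * (a + 2) ^ 2
      + 3 * (2 * (a + 2) ^ 2) * (8 * a ^ 2 + 32 * a + 31 + t) ≤ (8 * a ^ 2 + 32 * a + 31 + t) ^ 2 := by
    have e1 : hb (a + 2) = (a + 1) * (2 * a + 3) := by
      unfold hb
      congr 1
    rw [e1]
    have e2 : (8 * a ^ 2 + 32 * a + 31 + t) ^ 2
        = 8 * (a + 2) ^ 2 * ((a + 1) * (2 * a + 3)) + (a + 2) ^ 3 + 2 * (a + 2) ^ 2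
          + 3 * (2 * (a + 2) ^ 2) * (8 * a ^ 2 + 32 * a + 31 + t)
          + (23 * a ^ 3 + 118 * a ^ 2 + 196 * a + 105 + (10 * a ^ 2 + 40 * a + 38) * t + t ^ 2) := by ring
    rw [e2]
    exact Nat.le_add_right _ _
  omega

/-- on the line: big items, off the line: items of multiplicity at most `M` -/
theorem inj_on {M : ℕ} (hM : 2 ≤ M) : ∀ n : ℕ, ∀ x : ι → Item, OkB M x → tot (Item.btr M) x + 8 * M ^ 2 ≤ n →
    tot Item.tr x ≤ n → T n ≤ tot Item.sz x → Inj n x := by
  intro n
  induction n with
  | zero => exact fun x _ _ _ _ => inj_zero x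
  | succ n ih =>
    intro x hx hb htr hsz
    have h1 : M * M + 2 * M ≤ 8 * M ^ 2 := by nlinarith
    apply exact_step (by omega) _ x hx rfl (by omega) htr hsz
    intro y g1 g2 g3 g4 g5
    by_cases h2 : tot (Item.bn M) x = 0
    · obtain ⟨h3, h4, h5⟩ := g5 h2
      exact high_start hM (by omega) h3 g2 g3 h4 h5
    · exact ih y g1 (by omega) g2 g3

/-- **General fat points** with arbitrary big points. -/
theorem inj_big {M n : ℕ} {x : ι → Item} (m : ι → ℕ) (hx : ∀ k, x k = .off (m k))
    (hn : ∑ k, (if M < m k then m k else 0) + 8 * M ^ 2 ≤ n ∨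
      (M ≤ 1 ∧ ∑ k, (if M < m k then m k else 0) ≤ n))
    (hsz : T n ≤ tot Item.sz x) : Inj n x := by
  -- put the big points on the line
  set y : ι → Item := fun k => if M < m k then .on (m k) 0 else .off (m k) with hy
  have hyx : Inj n y → Inj n x := by
    rintro ⟨p, hp⟩
    refine ⟨fun k => if M < m k then ((p k).1, 0) else p k, fun F hF hc => hp F hF (fun k => ?_)⟩
    have h1 := hc k
    rw [hx] at h1
    simp only [hy]
    by_cases h2 : M < m k
    · simp only [if_pos h2] at h1 ⊢
      intro i j hij
      simp only [Item.slice, sl_full] at hij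
      exact h1 i j hij
    · simp only [if_neg h2] at h1 ⊢
      exact h1
  apply hyx
  have hokB : OkB M y := by
    intro k
    simp only [hy]
    split_ifs with h
    · exact Nat.zero_le _
    · simp only [Item.okB]
      omega
  have htr : tot Item.tr y = ∑ k, (if M < m k then m k else 0) := by
    apply Finset.sum_congr rfl
    intro k _
    simp only [hy]
    split_ifs with h
    · simp only [Item.tr]
      split_ifs <;> omega
    · rfl
  have hbtr : tot (Item.btr M) y ≤ ∑ k, (if M < m k then m k else 0) := by
    rw [← htr]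
    apply tot_le
    intro k
    cases y k with
    | on m g =>
      simp only [Item.btr]
      split_ifs
      · exact le_rfl
      · exact Nat.zero_le _
    | off m => exact Nat.zero_le _
  have hszy : tot Item.sz y = tot Item.sz x := by
    apply Finset.sum_congr rfl
    intro k _
    simp only [hy, hx]
    split_ifs <;> simp [Item.sz]
  rcases Nat.lt_or_ge M 2 with hM | hM
  · apply finishB hokB ?_ (by omega) (by omega)
    apply tot_eq_zero
    intro k
    simp only [hy]
    split_ifs with h
    · rfl
    · simp only [Item.fat]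
      split_ifs <;> omega
  · exact inj_on hM n y hokB (by omega) (by omega) (by omega)

end Pool.Agent.Helper1.FI
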