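import Pool.Agent.Helper1.FG.Geo

/-!
# Differential Horace steps over several rows (MP_6ec8e4_ag)
-/

namespace Pool.Agent.Helper1.FG

open Polynomial Pool.Agent.Helper1.FH

section alg

/-- the coefficients of `(Y-ε)^N * b` -/
lemma coeff_sub_pow_mul (N : ℕ) (b : Polynomial (Polynomial ℝ)) (s : ℕ) :
    X ^ s * ((X - C (X : Polynomial ℝ)) ^ N * b).coeff s
      = ∑ r ∈ Finset.range (s + 1), (((N.choose (s - r) : ℕ) : Polynomial ℝ) * (-1) ^ (N - (s - r)))
          * (X ^ (N + r) * b.coeff r) := by
  have h1 : ∀ d, ((X - C (X : Polynomial ℝ)) ^ N).coeff d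
      = ((N.choose d : ℕ) : Polynomial ℝ) * (-X) ^ (N - d) := by
    intro d
    rw [sub_eq_add_neg, ← C_neg, coeff_X_add_C_pow]
    ring
  have h0 := Finset.Nat.sum_antidiagonal_eq_sum_range_succ
    (fun i j => ((X - C (X : Polynomial ℝ)) ^ N).coeff i * b.coeff j) s
  rw [coeff_mul, h0, Finset.mul_sum, ← Finset.sum_range_reflect]
  apply Finset.sum_congr rfl
  intro r hr
  rw [Finset.mem_range] at hr
  have h2 : s - (s + 1 - 1 - r) = r := by omega
  have h3 : s + 1 - 1 - r = s - r := by omega
  rw [h2, h3, h1]
  by_cases h4 : s - r ≤ N
  · have h5 : (-X : Polynomial ℝ) ^ (N - (s - r)) = (-1) ^ (N - (s - r)) * X ^ (N - (s - r)) := by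
      rw [neg_pow]
    have h6 : (X : Polynomial ℝ) ^ (N + r) = X ^ s * X ^ (N - (s - r)) := by
      rw [← pow_add]
      congr 1
      omega
    rw [h5, h6]
    ring
  · rw [Nat.choose_eq_zero_of_lt (by omega)]
    simp

/-- if `X^P` divides `X^s a_s` for `s < j` then it divides `X^(N+r) b_r` for `r < j` -/
lemma dvd_b {N P j : ℕ} {b : Polynomial (Polynomial ℝ)}
    (h : ∀ s, s < j → (X : Polynomial ℝ) ^ P ∣ X ^ s * ((X - C (X : Polynomial ℝ)) ^ N * b).coeff s) :
    ∀ r, r < j → (X : Polynomial ℝ) ^ P ∣ X ^ (N + r) * b.coeff r := by
  intro r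
  induction r using Nat.strong_induction_on with
  | _ r ih =>
    intro hr
    have h1 := h r hr
    rw [coeff_sub_pow_mul, Finset.sum_range_succ] at h1
    have h2 : (X : Polynomial ℝ) ^ P ∣ ∑ r' ∈ Finset.range r,
        (((N.choose (r - r') : ℕ) : Polynomial ℝ) * (-1) ^ (N - (r - r'))) * (X ^ (N + r') * b.coeff r') := by
      apply Finset.dvd_sum
      intro r' hr'
      rw [Finset.mem_range] at hr'
      exact Dvd.dvd.mul_left (ih r' hr' (by omega)) _
    have h3 := (dvd_add_right h2).1 h1
    rw [Nat.sub_self, Nat.choose_zero_right, Nat.cast_one, one_mul, Nat.sub_zero] at h3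
    have h9 : IsUnit ((-1 : Polynomial ℝ) ^ N) := (isUnit_one.neg).pow _
    exact (h9.dvd_mul_left).1 h3

/-- the next coefficient -/
lemma dvd_next {N P j : ℕ} {b : Polynomial (Polynomial ℝ)} (hP : P ≤ N + j)
    (h : ∀ s, s < j → (X : Polynomial ℝ) ^ P ∣ X ^ s * ((X - C (X : Polynomial ℝ)) ^ N * b).coeff s) :
    (X : Polynomial ℝ) ^ P ∣ X ^ j * ((X - C (X : Polynomial ℝ)) ^ N * b).coeff j := by
  have h1 := dvd_b h
  rw [coeff_sub_pow_mul, Finset.sum_range_succ]
  apply dvd_add
  · apply Finset.dvd_sum
    intro r' hr'
    rw [Finset.mem_range] at hr'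
    exact Dvd.dvd.mul_left (h1 r' hr') _
  · apply Dvd.dvd.mul_left
    exact Dvd.dvd.mul_right (pow_dvd_pow _ hP) _

end alg

variable {ι : Type*} [Fintype ι] [DecidableEq ι]

/-- **Differential Horace step** with pre-slices `g 0 < g 1 < ... < g (l-1)`. -/
theorem diffG {n l : ℕ} {x : ι → GI} {k : ι} {m : ℕ} (hk : x k = .off m) (g : ℕ → ℕ)
    (hg : ∀ j, j < l → g j ≤ m) (hmono : ∀ i j, i < j → j < l → g i + (j - i) ≤ g j)
    (htr : ∀ j, j < l → n + l ≤ ∑ i, (x i).row j + g j + j)
    (r : ℕ → ℕ) (hr : ∀ i j, i < r j → i < m ∧ l + j + i < m + ((Finset.range l).filter (fun s => g s ≤ i)).card)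
    (h : InjG n (Function.update (fun i => (x i).shift l) k (.on r))) : InjG (n + l) x := by
  obtain ⟨p, hp, hw, hd⟩ := exists_goodG h
  by_contra hcon
  set t : ℝ := (p k).1 with ht
  set P : ι → Polynomial ℝ × Polynomial ℝ :=
    fun l => if l = k then (C t, X) else (C (p l).1, C (p l).2) with hP
  have hPk : P k = (C t, X) := by simp [hP]
  have hPl : ∀ l, l ≠ k → P l = (C (p l).1, C (p l).2) := fun l hl => by simp [hP, hl]
  have hDP : DG (n + l) x P = 0 := by
    apply Polynomial.funext
    intro e
    rw [eval_zero]
    have h1 := DG_map (evalRingHom e) (n + l) x P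
    rw [coe_evalRingHom] at h1
    rw [h1]
    by_contra h2
    exact hcon ⟨_, injAtG_iff_D.2 h2⟩
  unfold DG at hDP
  rw [← Matrix.exists_mulVec_eq_zero_iff] at hDP
  obtain ⟨c, hc, hc0⟩ := hDP
  have hA : (AG (n + l) x P).mulVec c = 0 := by
    funext r
    apply Polynomial.funext
    intro e
    have h1 := mulVec_eq_zero_of_gram ((AG (n + l) x P).map (evalRingHom e))
      (fun b => evalRingHom e (c b)) ?_
    · have h2 := congrFun h1 r
      simpa [Matrix.mulVec, dotProduct, eval_finsetSum] using h2
    · funext b
      have h2 := congrArg (evalRingHom e) (congrFun hc0 b)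
      simpa [Matrix.mulVec, dotProduct, Matrix.mul_apply, eval_finsetSum] using h2
  obtain ⟨s, c', hc', b0, hb0⟩ := exists_primitive c hc
  have hA' : (AG (n + l) x P).mulVec c' = 0 := by
    funext r
    have h1 := congrFun hA r
    have h2 : (AG (n + l) x P).mulVec c r = X ^ s * (AG (n + l) x P).mulVec c' r := by
      simp only [Matrix.mulVec, dotProduct, Finset.mul_sum]
      apply Finset.sum_congr rfl
      intro b _
      rw [hc' b]
      ring
    rw [h2] at h1
    simpa using h1
  have hcond := (condG_iff x P c').2 hA'
  set φ : Polynomial ℝ →+* ℝ := evalRingHom 0 with hφ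
  have hφX : ∀ z : Polynomial ℝ, X ∣ z → φ z = 0 := by
    rintro _ ⟨d, rfl⟩
    simp [hφ]
  set F : Polynomial (Polynomial (Polynomial ℝ)) := poly c' with hF
  set Fb : Polynomial (Polynomial ℝ) := poly (fun q => φ (c' q)) with hFb
  have hFb0 : Fb ≠ 0 := by
    intro h0
    have h1 := congrFun (poly_eq_zero h0) b0
    apply hb0
    simpa [hφ, ← coeff_zero_eq_eval_zero] using h1
  have hcol : ∀ i, i < m → ∃ b : Polynomial (Polynomial ℝ),
      colp c' (C t) i = (X - C X) ^ (m - i) * b := by
    intro i hi
    have h1 : (X - C (X : Polynomial ℝ)) ^ (m - i) ∣ colp c' (C t) i := by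
      rw [X_sub_C_pow_dvd_iff, ← taylor_apply, X_pow_dvd_iff]
      intro j hj
      rw [taylor_colp]
      have h2 := hcond k
      rw [hk, hPk] at h2
      exact h2 i j (by simp only [GI.slice]; omega)
    exact h1
  choose! b hb using hcol
  have hcolj : ∀ i j, (taylor (C t) (F.coeff j)).coeff i = (colp c' (C t) i).coeff j := by
    intro i j
    rw [coeff_colp, tc_w_zero]
  -- the key divisibility
  have key : ∀ j, j < l → C (X ^ (m - g j + 1)) ∣ F.coeff j := by
    intro j
    induction j using Nat.strong_induction_on with
    | _ j ihj =>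
      intro hj
      have hgj := hg j hj
      -- divisibility of the Taylor coefficients
      have hco : ∀ i, i < g j → (X : Polynomial ℝ) ^ (m - g j + 1) ∣ (taylor (C t) (F.coeff j)).coeff i := by
        intro i hi
        rw [hcolj, hb i (by omega)]
        have h1 : (X : Polynomial ℝ) ^ (m - g j + 1 + j) ∣ X ^ j * ((X - C (X : Polynomial ℝ)) ^ (m - i) * b i).coeff j := by
          apply dvd_next (by omega)
          intro s hs
          have h2 := ihj s hs (by omega)
          obtain ⟨d, hd'⟩ := h2
          rw [← hb i (by omega), ← hcolj, hd', taylor_mul, taylor_C, coeff_C_mul, ← mul_assoc, ← pow_add]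
          apply Dvd.dvd.mul_right
          apply pow_dvd_pow
          have h3 := hmono s j hs hj
          have h4 := hg s (by omega)
          omega
        rw [pow_add, mul_comm] at h1
        exact (mul_dvd_mul_iff_left (pow_ne_zero _ X_ne_zero)).1 h1
      have claim : ∀ q, q ≤ m - g j + 1 → C (X ^ q) ∣ F.coeff j := by
        intro q
        induction q with
        | zero =>
          intro _
          simp
        | succ q ih =>
          intro hq
          obtain ⟨h1, hh1⟩ := ih (by omega)
          have hz : h1.map φ = 0 := by
            apply trace_zero (fun l => (p l).1) hd (fun l => if l = k then g j else (x l).row j) _ (n + l - j)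
            · intro i hi
              have h2 : (F.coeff j).coeff i = 0 := low_poly c' i j (by omega)
              rw [hh1, coeff_C_mul] at h2
              rw [coeff_map]
              have h3 : h1.coeff i = 0 := by simpa using h2
              rw [h3, map_zero]
            · have h2 : ∑ l, (if l = k then g j else (x l).row j) = ∑ l, (x l).row j + g j := by
                rw [Finset.sum_ite, Finset.filter_eq', if_pos (Finset.mem_univ k), Finset.sum_singleton,
                  add_comm, Finset.filter_ne']
                congr 1
                rw [← Finset.sum_erase_add _ _ (Finset.mem_univ k), hk]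
                simp [GI.row]
              rw [h2]
              have := htr j hj
              omega
            · intro l' i hi
              by_cases hl : l' = k
              · subst hl
                rw [if_pos rfl] at hi
                have h2 := hco i hi
                rw [hh1, taylor_mul, taylor_C, coeff_C_mul] at h2
                have h3 : (X : Polynomial ℝ) ∣ (taylor (C t) h1).coeff i := by
                  have h4 : (X : Polynomial ℝ) ^ (q + 1) ∣ X ^ q * (taylor (C t) h1).coeff i :=
                    dvd_trans (pow_dvd_pow _ hq) h2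
                  rw [pow_succ] at h4
                  exact (mul_dvd_mul_iff_left (pow_ne_zero _ X_ne_zero)).1 h4
                have h5 : (taylor t (h1.map φ)).coeff i = φ ((taylor (C t) h1).coeff i) := by
                  rw [← coeff_map, taylor_map_ring]
                  simp [hφ]
                rw [← ht, h5]
                exact hφX _ h3
              · rw [if_neg hl] at hi
                have h2 := rowG_of_cond (hcond l') j i hi
                rw [hPl l' hl, hh1, taylor_mul, taylor_C, coeff_C_mul] at h2
                have h3 : (taylor (C (p l').1) h1).coeff i = 0 := by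
                  rcases mul_eq_zero.1 h2 with h4 | h4
                  · exact absurd h4 (pow_ne_zero q X_ne_zero)
                  · exact h4
                have h5 : (taylor (p l').1 (h1.map φ)).coeff i = φ ((taylor (C (p l').1) h1).coeff i) := by
                  rw [← coeff_map, taylor_map_ring]
                  simp [hφ]
                rw [h5, h3, map_zero]
          rw [C_dvd_iff_dvd_coeff]
          intro i
          have h2 : φ (h1.coeff i) = 0 := by
            rw [← coeff_map, hz, coeff_zero]
          have h3 : X ∣ h1.coeff i := by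
            rw [X_dvd_iff, coeff_zero_eq_eval_zero]
            exact h2
          rw [hh1, coeff_C_mul, pow_succ]
          exact mul_dvd_mul_left _ h3
      exact claim _ le_rfl
  -- the first `l` rows of the reduction vanish
  have hF0 : ∀ j, j < l → Fb.coeff j = 0 := by
    intro j hj
    ext i
    have h1 : (Fb.coeff j).coeff i = φ ((F.coeff j).coeff i) := by
      rw [hFb, hF, coeff_poly, coeff_poly]
      split_ifs <;> simp
    rw [h1, coeff_zero]
    apply hφX
    have hdv := key j hj
    rw [C_dvd_iff_dvd_coeff] at hdv
    exact dvd_trans (dvd_pow_self _ (by omega)) (hdv i)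
  obtain ⟨G, hFG, hGlow⟩ := exists_eq_pow_mul (n := n) l (low_poly _) hF0
  change Fb = X ^ l * G at hFG
  have hlast : G = 0 := by
    apply hp G hGlow
    intro l'
    by_cases hl : l' = k
    · subst hl
      rw [Function.update_self]
      intro i j hij
      simp only [GI.slice] at hij
      simp only [GI.y]
      obtain ⟨him, hij2⟩ := hr i j hij
      have h1 : tc G t 0 i j = tc Fb t 0 i (l + j) := by
        rw [tc_w_zero, tc_w_zero, hFG, add_comm l j, coeff_X_pow_mul]
      rw [h1]
      have h2 : tc Fb t 0 i (l + j) = φ ((colp c' (C t) i).coeff (l + j)) := by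
        rw [coeff_colp, ← tc_poly_map]
        simp [hφ, hFb]
      rw [h2]
      -- the first coefficients of `b i` vanish modulo `X`
      set S := ((Finset.range l).filter (fun s => g s ≤ i)).card with hS
      have hSmem : ∀ s, s < S → s < l ∧ g s ≤ i := by
        intro s hs
        by_contra hcon2
        have h3 : (Finset.range l).filter (fun s => g s ≤ i) ⊆ Finset.range s := by
          intro a ha
          rw [Finset.mem_filter, Finset.mem_range] at ha
          rw [Finset.mem_range]
          by_contra h4
          apply hcon2
          have h5 : s ≤ a := by omega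
          refine ⟨by omega, ?_⟩
          rcases Nat.eq_or_lt_of_le h5 with h6 | h6
          · rw [h6]; exact ha.2
          · have := hmono s a h6 ha.1
            omega
        have h4 := Finset.card_le_card h3
        rw [Finset.card_range] at h4
        omega
      have hbS : ∀ s, s < S → X ∣ (b i).coeff s := by
        intro s hs
        have h3 : (X : Polynomial ℝ) ^ (m - i + s + 1) ∣ X ^ (m - i + s) * (b i).coeff s := by
          apply dvd_b (j := s + 1) _ s (by omega)
          intro s' hs'
          have h4 := hSmem s hs
          have h5 := hSmem s' (by omega)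
          obtain ⟨d, hd'⟩ := key s' h5.1
          rw [← hb i him, ← hcolj, hd', taylor_mul, taylor_C, coeff_C_mul, ← mul_assoc, ← pow_add]
          apply Dvd.dvd.mul_right
          apply pow_dvd_pow
          have h6 := hg s' h5.1
          rcases Nat.eq_or_lt_of_le (show s' ≤ s by omega) with h7 | h7
          · subst h7
            omega
          · have := hmono s' s h7 h4.1
            omega
        rw [pow_succ] at h3
        exact (mul_dvd_mul_iff_left (pow_ne_zero _ X_ne_zero)).1 h3
      have hcb : φ ((colp c' (C t) i).coeff (l + j)) = (X ^ (m - i) * (b i).map φ).coeff (l + j) := by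
        rw [← coeff_map, hb i him]
        simp [hφ]
      rw [hcb, coeff_X_pow_mul']
      split_ifs with h3
      · rw [coeff_map]
        apply hφX
        apply hbS
        omega
      · rfl
    · rw [Function.update_of_ne hl]
      apply condG_shift (hw l') l
      rw [← hFG]
      intro i j hij
      have h1 := hcond l' i j hij
      rw [hPl l' hl] at h1
      have h2 : (x l').y (C (p l').2) = C ((x l').y (p l').2) := by
        cases x l' <;> simp [GI.y]
      simp only [h2] at h1
      have h3 := tc_poly_map φ c' (C (p l').1) (C ((x l').y (p l').2)) i j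
      rw [h1, map_zero] at h3
      simpa [hφ, hFb] using h3
  apply hFb0
  rw [hFG, hlast, mul_zero]

end Pool.Agent.Helper1.FG
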