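import Pool.Agent.Helper1.FH.Main

/-!
# General vertically graded shapes on the line (MP_6ec8e4_ag)
-/

namespace Pool.Agent.Helper1.FG

open Polynomial Pool.Agent.Helper1.FH

/-- on: the conditions `(X-t)^(s j) ∣ f_j` at a point `(t,0)`; off: an `m`-fold point -/
inductive GI where
  | on (s : ℕ → ℕ)
  | off (m : ℕ)

/-- slices -/
def GI.slice : GI → ℕ → ℕ
  | .on s, j => s j
  | .off m, j => m - j

/-- second coordinate -/
def GI.y {R : Type*} [CommRing R] (x : GI) (w : R) : R :=
  match x with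
  | .on _ => 0
  | .off _ => w

/-- forget the first `l` rows -/
def GI.shift (l : ℕ) : GI → GI
  | .on s => .on (fun j => s (j + l))
  | .off m => .off m

/-- trace in row `j` -/
def GI.row (j : ℕ) : GI → ℕ
  | .on s => s j
  | .off _ => 0

/-- conditions -/
def CondG {R : Type*} [CommRing R] (x : GI) (p : R × R) (F : Polynomial (Polynomial R)) : Prop :=
  ∀ i j, i < x.slice j → tc F p.1 (x.y p.2) i j = 0

/-- injectivity at given parameters -/
def InjAtG {R : Type*} [CommRing R] {ι : Type*} (n : ℕ) (x : ι → GI) (p : ι → R × R) : Prop :=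
  ∀ F : Polynomial (Polynomial R), Low n F → (∀ k, CondG (x k) (p k) F) → F = 0

/-- injectivity -/
def InjG {ι : Type*} (n : ℕ) (x : ι → GI) : Prop :=
  ∃ p : ι → ℝ × ℝ, InjAtG n x p

/-- the earlier items as general items -/
def toG : Item → GI
  | .on m g => .on (sl m g)
  | .off m => .off m

theorem inj_of_injG {ι : Type*} {n : ℕ} {x : ι → Item} (h : InjG n (fun k => toG (x k))) : Inj n x := by
  obtain ⟨p, hp⟩ := h
  refine ⟨p, fun F hF hc => hp F hF (fun k => ?_)⟩
  have h1 := hc k
  show CondG (toG (x k)) (p k) F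
  cases hx : x k with
  | on m g =>
    rw [hx] at h1
    exact h1
  | off m =>
    rw [hx] at h1
    exact h1

section ring

variable {R : Type*} [CommRing R] {ι : Type*}

/-- the interpolation matrix -/
def AG (n : ℕ) (x : ι → GI) (p : ι → R × R) : Matrix (ι × Fin n × Fin n) (B n) R :=
  fun r q =>
    if (r.2.1 : ℕ) < (x r.1).slice r.2.2 then
      (((q.1 : ℕ)).choose r.2.1 : R) * (((q.2 : ℕ)).choose r.2.2 : R)
        * (p r.1).1 ^ ((q.1 : ℕ) - r.2.1) * ((x r.1).y (p r.1).2) ^ ((q.2 : ℕ) - r.2.2)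
    else 0

lemma mulVec_AG (n : ℕ) (x : ι → GI) (p : ι → R × R) (c : B n → R) (k : ι) (i j : Fin n) :
    (AG n x p).mulVec c (k, i, j)
      = if (i : ℕ) < (x k).slice j then tc (poly c) (p k).1 ((x k).y (p k).2) i j else 0 := by
  unfold Matrix.mulVec dotProduct AG
  split_ifs with h
  · rw [tc_poly]
    apply Finset.sum_congr rfl
    intro q _
    simp only [h, if_true]
    ring
  · simp [h]

lemma condG_iff {n : ℕ} (x : ι → GI) (p : ι → R × R) (c : B n → R) :
    (∀ k, CondG (x k) (p k) (poly c)) ↔ (AG n x p).mulVec c = 0 := by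
  constructor
  · intro h
    funext ⟨k, i, j⟩
    rw [mulVec_AG]
    split_ifs with h1
    · exact h k i j h1
    · rfl
  · intro h k i j hij
    by_cases h1 : i < n ∧ j < n
    · have h2 := congrFun h (k, ⟨i, h1.1⟩, ⟨j, h1.2⟩)
      rw [mulVec_AG] at h2
      simpa [hij] using h2
    · rw [tc_poly]
      apply Finset.sum_eq_zero
      intro q _
      have hq1 := q.1.2
      have hq2 := q.2.2
      by_cases h3 : n ≤ i
      · rw [Nat.choose_eq_zero_of_lt (show (q.1 : ℕ) < i by omega)]
        simp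
      · rw [Nat.choose_eq_zero_of_lt (show (q.2 : ℕ) < j by omega)]
        simp

lemma injAtG_iff {n : ℕ} (x : ι → GI) (p : ι → R × R) :
    InjAtG n x p ↔ ∀ c : B n → R, (AG n x p).mulVec c = 0 → c = 0 := by
  constructor
  · intro h c hc
    exact poly_eq_zero (h _ (low_poly c) ((condG_iff x p c).2 hc))
  · intro h F hF hc
    obtain ⟨c, rfl⟩ := exists_poly hF
    rw [h c ((condG_iff x p c).1 hc)]
    simp [poly]

lemma AG_map {S : Type*} [CommRing S] (φ : R →+* S) (n : ℕ) (x : ι → GI) (p : ι → R × R) :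
    (AG n x p).map φ = AG n x (fun k => (φ (p k).1, φ (p k).2)) := by
  ext r q
  simp only [AG, Matrix.map_apply]
  split_ifs with h
  · simp only [map_mul, map_pow, map_natCast]
    congr 2
    cases x r.1 <;> simp [GI.y]
  · simp

variable [Fintype ι]

/-- Gram determinant -/
noncomputable def DG (n : ℕ) (x : ι → GI) (p : ι → R × R) : R :=
  ((AG n x p).transpose * AG n x p).det

lemma injAtG_of_D [IsDomain R] {n : ℕ} {x : ι → GI} {p : ι → R × R} (h : DG n x p ≠ 0) :
    InjAtG n x p := by
  rw [injAtG_iff]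
  intro c hc
  by_contra hne
  apply h
  unfold DG
  rw [← Matrix.exists_mulVec_eq_zero_iff]
  refine ⟨c, hne, ?_⟩
  rw [← Matrix.mulVec_mulVec, hc, Matrix.mulVec_zero]

lemma DG_map {S : Type*} [CommRing S] (φ : R →+* S) (n : ℕ) (x : ι → GI) (p : ι → R × R) :
    φ (DG n x p) = DG n x (fun k => (φ (p k).1, φ (p k).2)) := by
  unfold DG
  rw [← AG_map, RingHom.map_det]
  congr 1
  ext a b
  simp [Matrix.mul_apply]

end ring

section real

variable {ι : Type*} [Fintype ι]

lemma injAtG_iff_D {n : ℕ} {x : ι → GI} {p : ι → ℝ × ℝ} : InjAtG n x p ↔ DG n x p ≠ 0 := by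
  refine ⟨fun h h0 => ?_, injAtG_of_D⟩
  unfold DG at h0
  rw [← Matrix.exists_mulVec_eq_zero_iff] at h0
  obtain ⟨c, hc, hc0⟩ := h0
  exact hc ((injAtG_iff x p).1 h c (mulVec_eq_zero_of_gram _ _ hc0))

lemma eval_DG {n : ℕ} (x : ι → GI) (p : ι → ℝ × ℝ) :
    MvPolynomial.eval (vals p) (DG n x (gp ι)) = DG n x p := by
  rw [DG_map]
  simp [gp, vals]

lemma DG_ne_zero_of_inj {n : ℕ} {x : ι → GI} (h : InjG n x) : DG n x (gp ι) ≠ 0 := by
  obtain ⟨p, hp⟩ := h
  intro h0
  apply injAtG_iff_D.1 hp
  rw [← eval_DG, h0, map_zero]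

lemma exists_goodG {n : ℕ} {x : ι → GI} (h : InjG n x) :
    ∃ p : ι → ℝ × ℝ, InjAtG n x p ∧ (∀ k, (p k).2 ≠ 0) ∧
      (∀ k l, k ≠ l → (p k).1 ≠ (p l).1) := by
  classical
  set Q1 : MvPolynomial (ι × Bool) ℝ := ∏ k : ι, MvPolynomial.X (k, true) with hQ1
  set Q2 : MvPolynomial (ι × Bool) ℝ := ∏ k : ι, ∏ l : ι,
    (if k = l then 1 else (MvPolynomial.X (k, false) - MvPolynomial.X (l, false))) with hQ2
  have hQ1' : Q1 ≠ 0 := Finset.prod_ne_zero_iff.2 (fun k _ => MvPolynomial.X_ne_zero _)
  have hQ2' : Q2 ≠ 0 := by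
    refine Finset.prod_ne_zero_iff.2 (fun k _ => Finset.prod_ne_zero_iff.2 (fun l _ => ?_))
    split_ifs with hkl
    · exact one_ne_zero
    · rw [sub_ne_zero]
      intro he
      have := MvPolynomial.X_injective (R := ℝ) he
      simp [hkl] at this
  obtain ⟨v, hv⟩ := exists_eval_ne (DG n x (gp ι) * (Q1 * Q2))
    (mul_ne_zero (DG_ne_zero_of_inj h) (mul_ne_zero hQ1' hQ2'))
  rw [map_mul, map_mul] at hv
  set p : ι → ℝ × ℝ := fun k => (v (k, false), v (k, true)) with hp
  have hvp : v = vals p := by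
    funext ⟨k, b⟩
    cases b <;> simp [vals, hp]
  have h1 := left_ne_zero_of_mul hv
  have h3 := left_ne_zero_of_mul (right_ne_zero_of_mul hv)
  have h4 := right_ne_zero_of_mul (right_ne_zero_of_mul hv)
  rw [hvp, eval_DG] at h1
  refine ⟨p, injAtG_iff_D.2 h1, ?_, ?_⟩
  · intro k
    rw [hQ1, map_prod, Finset.prod_ne_zero_iff] at h3
    simpa using h3 k (Finset.mem_univ k)
  · intro k l hkl
    rw [hQ2, map_prod, Finset.prod_ne_zero_iff] at h4
    have h5 := h4 k (Finset.mem_univ k)
    rw [map_prod, Finset.prod_ne_zero_iff] at h5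
    have h6 := h5 l (Finset.mem_univ l)
    rw [if_neg hkl, map_sub, sub_ne_zero] at h6
    simpa using h6

end real

section steps

variable {K : Type*} [Field K]

/-- residual conditions after `l` rows -/
lemma condG_shift {x : GI} {p : K × K} (hp : p.2 ≠ 0) : ∀ (l : ℕ) {F : Polynomial (Polynomial K)},
    CondG x p (X ^ l * F) → CondG (x.shift l) p F := by
  intro l
  induction l with
  | zero =>
    intro F h
    rw [pow_zero, one_mul] at h
    cases x with
    | on s => exact h
    | off m => exact h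
  | succ l ih =>
    intro F h
    have h1 : CondG (x.shift l) p (X * F) := by
      apply ih
      rw [← mul_assoc, ← pow_succ]
      exact h
    cases x with
    | on s =>
      intro i j hij
      have h2 := h1 i (j + 1) (by
        simp only [GI.shift, GI.slice] at *
        rw [show j + 1 + l = j + (l + 1) by ring]
        exact hij)
      simp only [GI.shift, GI.y] at h2 ⊢
      rw [tc_X_mul_succ, zero_mul, add_zero] at h2
      exact h2
    | off m =>
      intro i j hij
      simp only [GI.shift, GI.slice, GI.y] at hij ⊢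
      exact off_div hp (fun i j h2 => h1 i j h2) j i hij

lemma rowG_of_cond {R : Type*} [CommRing R] {x : GI} {p : R × R} {F : Polynomial (Polynomial R)}
    (h : CondG x p F) (j : ℕ) : ∀ i, i < x.row j → (taylor p.1 (F.coeff j)).coeff i = 0 := by
  cases x with
  | on s =>
    intro i hi
    have h1 := h i j hi
    simp only [GI.y] at h1
    rwa [tc_w_zero] at h1
  | off m =>
    intro i hi
    simp [GI.row] at hi

/-- polynomials whose first `l` rows vanish -/
lemma exists_eq_pow_mul {R : Type*} [CommRing R] {n : ℕ} : ∀ (l : ℕ) {F : Polynomial (Polynomial R)},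
    Low (n + l) F → (∀ j, j < l → F.coeff j = 0) →
    ∃ G : Polynomial (Polynomial R), F = X ^ l * G ∧ Low n G := by
  intro l
  induction l with
  | zero =>
    intro F hF _
    exact ⟨F, by simp, hF⟩
  | succ l ih =>
    intro F hF h0
    have h1 := eq_X_mul_divX (h0 0 (by omega))
    obtain ⟨G, hG, hG'⟩ := ih (F := F.divX) (fun i j hij => by
      rw [coeff_divX]
      exact hF i (j + 1) (by omega)) (fun j hj => by
      rw [coeff_divX]
      exact h0 (j + 1) (by omega))
    refine ⟨G, ?_, hG'⟩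
    rw [pow_succ', mul_assoc, ← hG]
    exact h1

end steps

variable {ι : Type*} [Fintype ι]

omit [Fintype ι] in
lemma injG_zero (x : ι → GI) : InjG 0 x := by
  refine ⟨fun _ => 0, fun F hF _ => ?_⟩
  ext j i
  simpa using hF i j (Nat.zero_le _)

/-- Horace step -/
theorem horaceG {n : ℕ} {x : ι → GI} (htr : n + 1 ≤ ∑ k, (x k).row 0)
    (h : InjG n (fun k => (x k).shift 1)) : InjG (n + 1) x := by
  obtain ⟨p, hp, hw, hd⟩ := exists_goodG h
  refine ⟨p, fun F hF hc => ?_⟩
  have h0 : F.coeff 0 = 0 := by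
    apply trace_zero (fun k => (p k).1) hd (fun k => (x k).row 0) _ (n + 1) _ htr
    · intro k
      exact rowG_of_cond (hc k) 0
    · intro i hi
      exact hF i 0 (by omega)
  obtain ⟨G, hG, hG'⟩ := exists_eq_pow_mul (n := n) 1 hF (fun j hj => by
    have : j = 0 := by omega
    rw [this]
    exact h0)
  have h2 : G = 0 := by
    apply hp G hG'
    intro k
    apply condG_shift (hw k) 1
    rw [← hG]
    exact hc k
  rw [hG, h2, mul_zero]

omit [Fintype ι] in
/-- specialisation of an off point to the line -/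
theorem insertG [DecidableEq ι] {n : ℕ} {x : ι → GI} {k : ι} {m : ℕ} (hk : x k = .off m)
    (h : InjG n (Function.update x k (.on (fun j => m - j)))) : InjG n x := by
  obtain ⟨p, hp⟩ := h
  refine ⟨Function.update p k ((p k).1, 0), fun F hF hc => hp F hF (fun l => ?_)⟩
  by_cases hl : l = k
  · subst hl
    have h1 := hc l
    rw [hk, Function.update_self] at h1
    rw [Function.update_self]
    exact h1
  · have h1 := hc l
    rw [Function.update_of_ne hl] at h1
    rw [Function.update_of_ne hl]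
    exact h1

omit [Fintype ι] in
/-- more conditions -/
theorem InjG.mono {n : ℕ} {x y : ι → GI} (h : InjG n y)
    (hxy : ∀ k (p : ℝ × ℝ) F, CondG (x k) p F → CondG (y k) p F) : InjG n x := by
  obtain ⟨p, hp⟩ := h
  exact ⟨p, fun F hF hc => hp F hF (fun k => hxy k _ _ (hc k))⟩

end Pool.Agent.Helper1.FG
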