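import Pool.Agent.Helper1.FH.Main

/-!
# The potential argument in high degrees, improved constants (MP_6ec8e4_ag)
-/

namespace Pool.Agent.Helper1.FI

open Pool.Agent.Helper1.FH

variable {ι : Type*} [Fintype ι] [DecidableEq ι]

/-- the conditions which are propagated in high degrees -/
structure GoodC (M C n : ℕ) (x : ι → Item) : Prop where
  ok : Ok M x
  tr : tot Item.tr x ≤ n
  sz : T n ≤ tot Item.sz x
  act : tot Item.act x + tot Item.tr x ≤ n + M + 2
  gap : n + M * tot Item.tr x ≤ M * n + M * (M + 2)
  pot : C + 3 * (2 * M ^ 2) * n + 2 * (2 * M ^ 2) * T n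
    ≤ (2 * M ^ 2) * W x + n ^ 2

/-- filling and stepping (no simple on-items) -/
theorem fill_step {M C n : ℕ} (hM : 2 ≤ M) (hn : 5 * M ^ 2 ≤ n)
    (IH : ∀ x : ι → Item, GoodC M C n x → Inj n x) :
    ∀ q : ℕ, ∀ z : ι → Item, Ok M z → tot Item.fat z = q → tot Item.simp z = 0 →
      tot Item.tr z ≤ n + 1 → T (n + 1) ≤ tot Item.sz z →
      C + 3 * (2 * M ^ 2) * n + 2 * (2 * M ^ 2) * T (n + 1)
        + 2 * M * tot Item.tr z + 2 * M * M ≤ (2 * M ^ 2) * W z + n ^ 2 + 2 * M * (n + 2) →
      Inj (n + 1) z := by
  have hMn : M ≤ n := by nlinarith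
  intro q
  induction q with
  | zero =>
    intro z hz hq _ htr hsz _
    exact finishing (n + 1) _ z (fun k => by
      have := hz k
      cases hxk : z k with
      | on m g => rw [hxk] at this; simp only [Item.ok] at *; omega
      | off m => rw [hxk] at this; simp only [Item.ok] at *; omega) hq rfl htr hsz
  | succ q ihq =>
    intro z hz hq hs htr hsz hpot
    obtain ⟨k, hk0⟩ := exists_pos (f := Item.fat) (x := z) (by omega)
    obtain ⟨m, hm, hk⟩ := off_of_fat hk0
    have hmM : m ≤ M := by
      have := hz k
      rw [hk] at this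
      exact this
    by_cases hfit : tot Item.tr z + m ≤ n + 1
    · apply insert_on hk
      apply ihq
      · exact hz.update (by simp only [Item.ok]; omega)
      · have := fat_ins hk hm
        omega
      · rw [simp_ins hk hm]
        exact hs
      · rw [tr_ins hk]
        exact hfit
      · rw [sz_ins hk]
        exact hsz
      · have h1 : W (Function.update z k (.on m 0)) = W z + 1 := by
          unfold W
          rw [sz_ins hk, fill_ins hk hm, cc_ins hk hm]
          ring
        rw [h1, tr_ins hk]
        have h2 : 2 * M * m ≤ 2 * M ^ 2 * 1 := by nlinarith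
        have h3 : 2 * M * (tot Item.tr z + m) = 2 * M * tot Item.tr z + 2 * M * m := by ring
        have h4 : 2 * M ^ 2 * (W z + 1) = 2 * M ^ 2 * W z + 2 * M ^ 2 * 1 := by ring
        omega
    · have hT := T_succ n
      have hT2 : 2 * (2 * M ^ 2) * T (n + 1) = 2 * (2 * M ^ 2) * T n + 2 * (2 * M ^ 2) * (n + 1) := by
        rw [hT]; ring
      have htrle := tot_tr_le hz
      have htrsh := tot_tr_sh z
      have hszsh := tot_sz_sh hz
      have hWsh := W_sh hz hs
      by_cases heq : tot Item.tr z = n + 1
      · apply horace heq.symm.le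
        show Inj n (sh z)
        apply IH
        have hact := act_pos hz heq.symm.le
        have hactsh := tot_act_sh z
        refine ⟨hz.sh, by omega, by omega, by omega, ?_, ?_⟩
        · have h1 : M * tot Item.tr (sh z) + M * tot Item.act z ≤ M * (n + 1) := by
            rw [← mul_add]
            exact Nat.mul_le_mul le_rfl (by omega)
          have h2 : M * (n + 1) = M * n + M := by ring
          have h3 : M * (M + 2) = M * M + 2 * M := by ring
          omega
        · have h1 : 2 * M ^ 2 * W z ≤ 2 * M ^ 2 * (W (sh z) + 2 * (n + 1)) :=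
            Nat.mul_le_mul le_rfl (by omega)
          have h2 : 2 * M ^ 2 * (W (sh z) + 2 * (n + 1)) = 2 * M ^ 2 * W (sh z) + 2 * (2 * M ^ 2) * (n + 1) := by
            ring
          rw [heq] at hpot
          have h3 : 2 * M * (n + 2) = 2 * M * (n + 1) + 2 * M := by ring
          have h4 : 2 * M ≤ 2 * M * M := by nlinarith
          omega
      · have hg : n + 1 - tot Item.tr z < m := by omega
        set g := n + 1 - tot Item.tr z with hgdef
        apply diff_horace hk (g := g) hg.le
        · show n + 1 ≤ tot Item.tr z + g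
          omega
        · show Inj n (Function.update (sh z) k (.on m g))
          apply IH
          have h4 := tr_dif hk hg
          have h5 := sz_dif hk hg
          have h9 := fill_dif hk (g := g) hm
          have h10 := act_dif hk (g := g)
          have h11 := cc_dif hk (g := g)
          have hbig : M * M + M ≤ tot Item.tr z := by nlinarith
          have hact : M < tot Item.act z := by
            by_contra h12
            have h13 : M * tot Item.act z ≤ M * M := Nat.mul_le_mul le_rfl (by omega)
            omega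
          refine ⟨hz.sh.update (by simp only [Item.ok]; omega), by omega, by omega, by omega, ?_, ?_⟩
          · rw [h4]
            have h1 : M * tot Item.tr (sh z) + M * tot Item.act z ≤ M * (n + 1) := by
              rw [← mul_add]
              exact Nat.mul_le_mul le_rfl (by omega)
            have h2 : M * (n + 1) = M * n + M := by ring
            have h3 : M * (M + 2) = M * M + 2 * M := by ring
            have h6 : M * (tot Item.tr (sh z) + m) = M * tot Item.tr (sh z) + M * m := by ring
            have h7 : M * m ≤ M * M := Nat.mul_le_mul le_rfl hmM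
            omega
          · have hW2 : W z ≤ W (Function.update (sh z) k (.on m g)) + 2 * (n + 1) := by
              unfold W at *
              have := tot_fill_sh z
              omega
            have h1 : 2 * M ^ 2 * W z ≤ 2 * M ^ 2 * (W (Function.update (sh z) k (.on m g)) + 2 * (n + 1)) :=
              Nat.mul_le_mul le_rfl hW2
            have h2 : 2 * M ^ 2 * (W (Function.update (sh z) k (.on m g)) + 2 * (n + 1))
                = 2 * M ^ 2 * W (Function.update (sh z) k (.on m g)) + 2 * (2 * M ^ 2) * (n + 1) := by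
              ring
            have h3 : 2 * M * (n + 2) ≤ 2 * M * tot Item.tr z + 2 * M * M := by
              rw [← mul_add]
              exact Nat.mul_le_mul le_rfl (by omega)
            omega

/-- **High degrees**: with terminal lemmas for slack `h` and excess `h`. -/
theorem high {M h : ℕ} (hM : 2 ≤ M)
    (TI : ∀ n (x : ι → Item), Ok M x → M ≤ n → tot Item.tr x ≤ n → T n ≤ tot Item.sz x →
      h ≤ tot Item.fill x → Inj n x)
    (TII : ∀ n (x : ι → Item), Ok M x → tot Item.tr x ≤ n → T n + h ≤ tot Item.sz x → Inj n x) :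
    ∀ n, 5 * M ^ 2 ≤ n → ∀ x : ι → Item, GoodC M (8 * M ^ 2 * h + M ^ 3 + 2 * M ^ 2) n x → Inj n x := by
  intro n hn
  induction n, hn using Nat.le_induction with
  | base =>
    intro x hx
    have h1 := hx.pot
    have h2 := tot_cc_le hx.ok
    have h3 := tot_act_le x
    have h4 := hx.act
    have hMn : M ≤ 5 * M ^ 2 := by nlinarith
    have h5 : M ^ 2 * (8 * h + 4 * T (5 * M ^ 2) + (5 * M ^ 2 + M + 2)) ≤ M ^ 2 * (2 * W x) := by
      have h6 : M ^ 2 * (8 * h + 4 * T (5 * M ^ 2) + (5 * M ^ 2 + M + 2))
          = 8 * M ^ 2 * h + M ^ 3 + 2 * M ^ 2 + 2 * (2 * M ^ 2) * T (5 * M ^ 2) + 5 * M ^ 4 := by ring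
      have h7 : 3 * (2 * M ^ 2) * (5 * M ^ 2) = 30 * M ^ 4 := by ring
      have h8 : (5 * M ^ 2) ^ 2 = 25 * M ^ 4 := by ring
      have h9 : M ^ 2 * (2 * W x) = 2 * M ^ 2 * W x := by ring
      omega
    have h6 : 8 * h + 4 * T (5 * M ^ 2) + (5 * M ^ 2 + M + 2) ≤ 2 * W x :=
      Nat.le_of_mul_le_mul_left h5 (by positivity)
    unfold W at h6
    by_cases h7 : h ≤ tot Item.fill x
    · exact TI _ x hx.ok hMn hx.tr hx.sz h7
    · exact TII _ x hx.ok hx.tr (by omega)
  | succ n hn ih =>
    intro x hx
    have hMn : M ≤ n := by nlinarith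
    have htr := hx.tr
    have hsz := hx.sz
    have hact := hx.act
    have hgap := hx.gap
    have hpot := hx.pot
    have hT := T_succ n
    have hT2 : 2 * (2 * M ^ 2) * T (n + 1) = 2 * (2 * M ^ 2) * T n + 2 * (2 * M ^ 2) * (n + 1) := by
      rw [hT]; ring
    have hs := tot_simp_le hx.ok
    apply vtrick' hx.ok
    · -- branch (i)
      have c1 := tot_conv_tr hx.ok
      have c2 := tot_conv_fill hx.ok
      have c3 := tot_conv_sz hx.ok
      have c4 := tot_conv_cc hx.ok
      have c5 := tot_conv_simp hx.ok
      apply fill_step hM hn ih _ _ (fun k => conv_ok (by omega) (hx.ok k)) rfl c5 (by omega) (by omega)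
      have hW : W x ≤ W (fun k => (x k).conv) := by
        unfold W
        omega
      have h1 : 2 * M ^ 2 * W x ≤ 2 * M ^ 2 * W (fun k => (x k).conv) := Nat.mul_le_mul le_rfl hW
      have h2 : 2 * M * tot Item.tr (fun k => (x k).conv) ≤ 2 * M * tot Item.tr x :=
        Nat.mul_le_mul le_rfl (by omega)
      have h3 : (n + 1) ^ 2 = n ^ 2 + 2 * n + 1 := by ring
      have h4 : 2 * M * tot Item.tr x = 2 * (M * tot Item.tr x) := by ring
      have h5 : 3 * (2 * M ^ 2) * (n + 1) = 3 * (2 * M ^ 2) * n + 6 * (M * M) := by ring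
      have h6 : 2 * M * (n + 2) = 2 * (M * n) + 4 * M := by ring
      have h7 : M * (n + 1) = M * n + M := by ring
      have h8 : M * (M + 2) = M * M + 2 * M := by ring
      have h9 : 2 * M * M = 2 * (M * M) := by ring
      have h10 : 2 * M ≤ M * M := by nlinarith
      omega
    · -- branch (ii)
      apply ih
      have htrsh := tot_tr_sh x
      have hszsh := tot_sz_sh hx.ok
      have hactsh := tot_act_sh x
      have hccsh := tot_cc_sh hx.ok
      have hfillsh := tot_fill_sh x
      have hactle := tot_act_le x
      have htrle := tot_tr_le hx.ok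
      have hzero : tot Item.act x = 0 → tot Item.tr x = 0 := by
        intro h0
        rw [h0] at htrle
        omega
      have htr' : tot Item.tr (sh x) ≤ n := by
        by_cases h0 : tot Item.act x = 0
        · have := hzero h0
          omega
        · omega
      refine ⟨hx.ok.sh, htr', by omega, ?_, ?_, ?_⟩
      · by_cases h0 : tot Item.act x = 0
        · have := hzero h0
          omega
        · omega
      · by_cases h0 : tot Item.act x = 0
        · have h1 : tot Item.tr (sh x) = 0 := by
            have := hzero h0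
            omega
          rw [h1]
          have h2 : n ≤ M * n := Nat.le_mul_of_pos_left _ (by omega)
          omega
        · have h1 : M * tot Item.tr (sh x) + M ≤ M * tot Item.tr x := by
            have : M * (tot Item.tr (sh x) + 1) ≤ M * tot Item.tr x := Nat.mul_le_mul le_rfl (by omega)
            linarith
          have h2 : M * (n + 1) = M * n + M := by ring
          omega
      · -- potential
        have hW : W x ≤ W (sh x) + (tot Item.tr x + (n + 1) + (M + 2)) := by
          unfold W
          omega
        have f1 : 2 * M ^ 2 * W x ≤ 2 * M ^ 2 * (W (sh x) + (tot Item.tr x + (n + 1) + (M + 2))) :=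
          Nat.mul_le_mul le_rfl hW
        have f2 : 2 * M * ((n + 1) + M * tot Item.tr x) ≤ 2 * M * (M * (n + 1) + M * (M + 2)) :=
          Nat.mul_le_mul le_rfl hgap
        have e1 : 2 * M ^ 2 * (W (sh x) + (tot Item.tr x + (n + 1) + (M + 2)))
            = 2 * M ^ 2 * W (sh x) + 2 * (M ^ 2 * tot Item.tr x) + 2 * M ^ 2 * (n + 1) + 2 * M ^ 3 + 4 * M ^ 2 := by
          ring
        have e2 : 2 * M * ((n + 1) + M * tot Item.tr x) = 2 * (M * (n + 1)) + 2 * (M ^ 2 * tot Item.tr x) := by ring
        have e3 : 2 * M * (M * (n + 1) + M * (M + 2)) = 2 * M ^ 2 * (n + 1) + 2 * M ^ 3 + 4 * M ^ 2 := by ring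
        have e4 : (n + 1) ^ 2 = n ^ 2 + 2 * n + 1 := by ring
        have e5 : 3 * (2 * M ^ 2) * (n + 1) = 3 * (2 * M ^ 2) * n + 6 * M ^ 2 := by ring
        have e6 : 2 * (2 * M ^ 2) * (n + 1) = 2 * M ^ 2 * (n + 1) + 2 * M ^ 2 * (n + 1) := by ring
        have e7 : 4 * M ^ 3 + 2 * M ^ 2 + 2 * (n + 1) ≤ 2 * (M * (n + 1)) := by
          obtain ⟨a, rfl⟩ : ∃ a, M = a + 2 := ⟨M - 2, by omega⟩
          have h1 : 2 * (a + 1) * (5 * (a + 2) ^ 2 + 1) ≤ 2 * (a + 1) * (n + 1) :=
            Nat.mul_le_mul le_rfl (by omega)
          have h2 : 2 * (a + 1) * (5 * (a + 2) ^ 2 + 1) = 10 * a ^ 3 + 50 * a ^ 2 + 82 * a + 42 := by ring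
          have h4 : 4 * (a + 2) ^ 3 + 2 * (a + 2) ^ 2 = 4 * a ^ 3 + 26 * a ^ 2 + 56 * a + 40 := by ring
          have h3 : 2 * ((a + 2) * (n + 1)) = 2 * (a + 1) * (n + 1) + 2 * (n + 1) := by ring
          omega
        omega

end Pool.Agent.Helper1.FI
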