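import Pool.Agent.Helper1.FG.Multi

/-!
# Excess and filler lemmas with general shapes (MP_6ec8e4_ag)
-/

namespace Pool.Agent.Helper1.FG

open Pool.Agent.Helper1.FH

variable {ι : Type*} [Fintype ι] [DecidableEq ι]

/-- the fat point on the line -/
def tri (m : ℕ) : GI := .on (fun j => m - j)

lemma ok_tri {M m : ℕ} (h : m ≤ M) : (tri m).ok M := ⟨h, fun j => by show m - (j + 1) ≤ m - j - 1; omega⟩

lemma sz_tri {M m : ℕ} (h : m ≤ M) : (tri m).sz M = T m := by
  show ∑ j ∈ Finset.range M, (m - j) = T m
  induction M generalizing m with
  | zero =>
    have : m = 0 := by omega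
    subst this
    rfl
  | succ M ih =>
    rcases m with _ | m
    · simp
    · rw [Finset.sum_range_succ', T_succ, ← ih (m := m) (by omega)]
      simp only [Nat.sub_zero, Nat.add_sub_add_right]

section upd

variable {x : ι → GI} {k : ι} {m : ℕ} (hk : x k = .off m)

include hk

lemma tr_ins : tr 0 (Function.update x k (tri m)) = tr 0 x + m := by
  have h := tot_update (GI.row 0) x k (tri m)
  rw [hk] at h
  have h1 : (tri m).row 0 = m := rfl
  have h2 : (GI.off m).row 0 = 0 := rfl
  unfold tr
  omega

lemma sz_ins {M : ℕ} (hm : m ≤ M) : tot (GI.sz M) (Function.update x k (tri m)) = tot (GI.sz M) x := by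
  have h := tot_update (GI.sz M) x k (tri m)
  rw [hk, sz_tri hm] at h
  have h2 : (GI.off m).sz M = T m := rfl
  omega

lemma fill_ins (hm : m ≠ 1) : tot GI.fill (Function.update x k (tri m)) = tot GI.fill x := by
  have h := tot_update GI.fill x k (tri m)
  rw [hk] at h
  have h1 : (tri m).fill = 0 := rfl
  have h2 : (GI.off m).fill = 0 := by simp [GI.fill, hm]
  omega

lemma fat_ins (hm : 2 ≤ m) : tot GI.fat (Function.update x k (tri m)) + 1 = tot GI.fat x := by
  have h := tot_update GI.fat x k (tri m)
  rw [hk] at h
  have h1 : (tri m).fat = 0 := rfl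
  have h2 : (GI.off m).fat = 1 := by simp [GI.fat, hm]
  omega

lemma fill_ins_one (hm : m = 1) : tot GI.fill (Function.update x k (tri m)) + 1 = tot GI.fill x := by
  have h := tot_update GI.fill x k (tri m)
  rw [hk] at h
  have h1 : (tri m).fill = 0 := rfl
  have h2 : (GI.off m).fill = 1 := by simp [GI.fill, hm]
  omega

lemma fat_ins_one (hm : m = 1) : tot GI.fat (Function.update x k (tri m)) = tot GI.fat x := by
  have h := tot_update GI.fat x k (tri m)
  rw [hk] at h
  have h1 : (tri m).fat = 0 := rfl
  have h2 : (GI.off m).fat = 0 := by simp [GI.fat, hm]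
  omega

end upd

lemma off_of_fat {x : GI} (h : 0 < x.fat) : ∃ m, 2 ≤ m ∧ x = .off m := by
  cases x with
  | on s => simp [GI.fat] at h
  | off m =>
    refine ⟨m, ?_, rfl⟩
    by_contra h1
    simp [GI.fat, show ¬ 2 ≤ m from h1] at h

lemma off_of_fill {x : GI} (h : 0 < x.fill) : x = .off 1 := by
  cases x with
  | on s => simp [GI.fill] at h
  | off m =>
    by_contra h1
    have h2 : m ≠ 1 := fun h3 => h1 (by rw [h3])
    simp [GI.fill, h2] at h

/-- a Horace step for configurations -/
lemma hstep {n : ℕ} {x : ι → GI} (h1 : n + 1 ≤ tr 0 x) (h : InjG n (sh 1 x)) : InjG (n + 1) x :=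
  horaceG h1 h

/-- **Excess lemma.** -/
theorem lemII {M : ℕ} (hM : 1 ≤ M) : ∀ n q : ℕ, ∀ x : ι → GI, Ok M x → tot GI.fill x + tot GI.fat x = q →
    (tr 0 x ≤ n ∨ (n + 1 ≤ 2 * M ∧ tr 0 x + 1 ≤ n + M)) →
    T n + (M - 1) * min n (2 * M - 1) ≤ tot (GI.sz M) x → InjG n x := by
  intro n
  induction n using Nat.strong_induction_on with
  | _ N IH =>
    rcases N with _ | n
    · exact fun q x _ _ _ _ => injG_zero x
    have hT := T_succ n
    have hT2 := two_T (n + 1)
    have hor : ∀ x : ι → GI, Ok M x → (tr 0 x ≤ n + 1 ∨ (n + 1 + 1 ≤ 2 * M ∧ tr 0 x + 1 ≤ n + 1 + M)) →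
        T (n + 1) + (M - 1) * min (n + 1) (2 * M - 1) ≤ tot (GI.sz M) x → n + 1 ≤ tr 0 x → InjG (n + 1) x := by
      intro x hx htr hsz h1
      apply hstep h1
      have h2 := tr_succ hx 0
      have h3 := act_pos hx (j := 0) (by omega)
      have h4 := tot_sz_sh hx 1
      rw [Finset.sum_range_one] at h4
      have h5 := tr_sh 1 0 x
      rw [zero_add] at h5 h2
      refine IH n (by omega) _ (sh 1 x) (hx.sh 1) rfl ?_ ?_
      · rcases htr with h6 | h6
        · left; omega
        · right; omega
      · rcases htr with h6 | h6
        · have h7 : (M - 1) * min n (2 * M - 1) ≤ (M - 1) * min (n + 1) (2 * M - 1) :=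
            Nat.mul_le_mul le_rfl (by omega)
          omega
        · rw [min_eq_left (by omega)] at hsz ⊢
          have h7 : (M - 1) * (n + 1) = (M - 1) * n + (M - 1) := by ring
          omega
    intro q
    induction q with
    | zero =>
      intro x hx hq htr hsz
      by_cases h1 : n + 1 ≤ tr 0 x
      · exact hor x hx htr hsz h1
      · exfalso
        have h2 := tot_sz_le hx (by omega)
        have h3 : tr 0 x * (tr 0 x + 1) ≤ n * (n + 1) := Nat.mul_le_mul (by omega) (by omega)
        have h4 : (n + 1) * (n + 1 + 1) = n * (n + 1) + 2 * (n + 1) := by ring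
        omega
    | succ q ihq =>
      intro x hx hq htr hsz
      by_cases h1 : n + 1 ≤ tr 0 x
      · exact hor x hx htr hsz h1
      · obtain ⟨k, m, hm, hk⟩ : ∃ k m, 1 ≤ m ∧ x k = .off m := by
          rcases Nat.eq_zero_or_pos (tot GI.fat x) with h2 | h2
          · obtain ⟨k, hk⟩ := exists_pos (f := GI.fill) (x := x) (by omega)
            exact ⟨k, 1, le_rfl, off_of_fill hk⟩
          · obtain ⟨k, hk⟩ := exists_pos h2
            obtain ⟨m, hm, hkm⟩ := off_of_fat hk
            exact ⟨k, m, by omega, hkm⟩
        have hmM : m ≤ M := by
          have := hx k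
          rw [hk] at this
          exact this
        have hins : (tr 0 x + m ≤ n + 1 ∨ (n + 1 + 1 ≤ 2 * M ∧ tr 0 x + m + 1 ≤ n + 1 + M)) → InjG (n + 1) x := by
          intro h2
          apply insertG hk
          change InjG (n + 1) (Function.update x k (tri m))
          apply ihq
          · exact hx.update (ok_tri hmM)
          · rcases Nat.eq_or_lt_of_le hm with h3 | h3
            · have h4 := fill_ins_one hk h3.symm
              have h5 := fat_ins_one hk h3.symm
              omega
            · have h4 := fill_ins hk (by omega)
              have h5 := fat_ins hk h3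
              omega
          · rw [tr_ins hk]
            exact h2
          · rw [sz_ins hk hmM]
            exact hsz
        by_cases h2 : n + 1 + 1 ≤ 2 * M
        · exact hins (Or.inr ⟨h2, by omega⟩)
        · by_cases h3 : tr 0 x + m ≤ n + 1
          · exact hins (Or.inl h3)
          · apply multi hx hk (by omega) (by omega) (by omega)
            intro n' hn' _ y hy htry hszy _
            refine IH n' hn' _ y hy rfl (Or.inl htry) ?_
            have h4 : (M - 1) * min n' (2 * M - 1) ≤ (M - 1) * min (n + 1) (2 * M - 1) :=
              Nat.mul_le_mul le_rfl (by omega)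
            omega

/-- **Finishing lemma**: only general simple points off the line. -/
theorem finishing {M : ℕ} : ∀ n q : ℕ, ∀ x : ι → GI, Ok M x → tot GI.fat x = 0 → tot GI.fill x = q →
    tr 0 x ≤ n → T n ≤ tot (GI.sz M) x → InjG n x := by
  intro n
  induction n with
  | zero => exact fun q x _ _ _ _ _ => injG_zero x
  | succ n ih =>
    have hT := T_succ n
    have hT2 := two_T (n + 1)
    have hor : ∀ x : ι → GI, Ok M x → tot GI.fat x = 0 → tr 0 x ≤ n + 1 →
        T (n + 1) ≤ tot (GI.sz M) x → n + 1 ≤ tr 0 x → InjG (n + 1) x := by
      intro x hx hfat htr hsz h1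
      apply hstep h1
      have h2 := tr_succ hx 0
      have h3 := act_pos hx (j := 0) (by omega)
      have h4 := tot_sz_sh hx 1
      rw [Finset.sum_range_one] at h4
      have h5 := tr_sh 1 0 x
      rw [zero_add] at h5 h2
      refine ih _ (sh 1 x) (hx.sh 1) ?_ rfl (by omega) (by omega)
      rw [tot_fat_sh]
      exact hfat
    intro q
    induction q with
    | zero =>
      intro x hx hfat hq htr hsz
      by_cases h1 : n + 1 ≤ tr 0 x
      · exact hor x hx hfat htr hsz h1
      · exfalso
        have h2 := tot_sz_le hx hfat
        have h3 : tr 0 x * (tr 0 x + 1) ≤ n * (n + 1) := Nat.mul_le_mul (by omega) (by omega)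
        have h4 : (n + 1) * (n + 1 + 1) = n * (n + 1) + 2 * (n + 1) := by ring
        omega
    | succ q ihq =>
      intro x hx hfat hq htr hsz
      by_cases h1 : n + 1 ≤ tr 0 x
      · exact hor x hx hfat htr hsz h1
      · obtain ⟨k, hk0⟩ := exists_pos (f := GI.fill) (x := x) (by omega)
        have hk := off_of_fill hk0
        have hM : 1 ≤ M := by
          have := hx k
          rw [hk] at this
          exact this
        apply insertG hk
        change InjG (n + 1) (Function.update x k (tri 1))
        have h2 := fill_ins_one hk rfl
        have h3 := fat_ins_one hk rfl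
        apply ihq
        · exact hx.update (ok_tri hM)
        · omega
        · omega
        · rw [tr_ins hk]
          omega
        · rw [sz_ins hk hM]
          exact hsz

/-- put `g` of the general simple points on the line -/
theorem insert_fillers {M n : ℕ} (hM : 1 ≤ M) : ∀ g : ℕ, ∀ x : ι → GI, Ok M x → g ≤ tot GI.fill x →
    (∀ y : ι → GI, Ok M y → tr 0 y = tr 0 x + g → tot GI.fill y + g = tot GI.fill x →
      tot (GI.sz M) y = tot (GI.sz M) x → tot GI.fat y = tot GI.fat x → InjG n y) → InjG n x := by
  intro g
  induction g with
  | zero =>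
    intro x hx _ h
    exact h x hx rfl rfl rfl rfl
  | succ g ih =>
    intro x hx hg h
    obtain ⟨k, hk0⟩ := exists_pos (f := GI.fill) (x := x) (by omega)
    have hk := off_of_fill hk0
    apply insertG hk
    change InjG n (Function.update x k (tri 1))
    have h2 := fill_ins_one hk rfl
    have h3 := fat_ins_one hk rfl
    apply ih
    · exact hx.update (ok_tri hM)
    · omega
    · intro y hy h4 h5 h6 h7
      apply h y hy
      · rw [h4, tr_ins hk]
        ring
      · omega
      · rw [h6, sz_ins hk hM]
      · rw [h7, h3]

/-- **Filler lemma.** -/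
theorem lemI {M : ℕ} : ∀ n q : ℕ, ∀ x : ι → GI, Ok M x → tot GI.fat x = q →
    tr 0 x ≤ n → T n ≤ tot (GI.sz M) x → (M - 1) * min n (2 * M - 1) ≤ tot GI.fill x → InjG n x := by
  intro n
  induction n using Nat.strong_induction_on with
  | _ N IH =>
    rcases N with _ | n
    · exact fun q x _ _ _ _ _ => injG_zero x
    have hT := T_succ n
    have hT2 := two_T (n + 1)
    intro q
    induction q with
    | zero =>
      intro x hx hq htr hsz _
      exact finishing (n + 1) _ x hx hq rfl htr hsz
    | succ q ihq =>
      intro x hx hq htr hsz hfill
      obtain ⟨k, hk0⟩ := exists_pos (f := GI.fat) (x := x) (by omega)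
      obtain ⟨m, hm, hk⟩ := off_of_fat hk0
      have hmM : m ≤ M := by
        have := hx k
        rw [hk] at this
        exact this
      have h1 := tot_update (GI.sz M) x k (.off 0)
      have h2 := tot_update (GI.row 0) x k (.off 0)
      have h3 := tot_update GI.fat x k (.off 0)
      have h4 := tot_update GI.fill x k (.off 0)
      rw [hk] at h1 h2 h3 h4
      have h5 : (GI.off 0).sz M = 0 := rfl
      have h6 : (GI.off m).sz M = T m := rfl
      have h7 : (GI.off 0).row 0 = 0 := rfl
      have h8 : (GI.off m).row 0 = 0 := rfl
      have h9 : (GI.off 0).fat = 0 := rfl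
      have h10 : (GI.off m).fat = 1 := by simp [GI.fat, hm]
      have h11 : (GI.off 0).fill = 0 := rfl
      have h12 : (GI.off m).fill = 0 := by
        simp only [GI.fill]
        split_ifs <;> omega
      by_cases hdrop : T (n + 1) + T m ≤ tot (GI.sz M) x
      · -- drop the item
        have h14 : InjG (n + 1) (Function.update x k (.off 0)) := by
          apply ihq
          · exact hx.update (Nat.zero_le _)
          · omega
          · unfold tr at htr ⊢
            omega
          · omega
          · omega
        apply h14.mono
        intro l p F hc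
        by_cases hl : l = k
        · subst hl
          rw [Function.update_self]
          intro i j hij
          simp [GI.slice] at hij
        · rw [Function.update_of_ne hl]
          exact hc
      · have hszfill : tot GI.fill x + T m ≤ tot (GI.sz M) x := by
          have h13 : tot GI.fill (Function.update x k (.off 0)) ≤ tot (GI.sz M) (Function.update x k (.off 0)) := by
            apply tot_le
            intro l
            cases (Function.update x k (.off 0) l) with
            | on s => simp [GI.fill]
            | off m =>
              simp only [GI.fill, GI.sz]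
              split_ifs with h
              · rw [h]; exact le_rfl
              · exact Nat.zero_le _
          omega
        by_cases hfit : tr 0 x + m ≤ n + 1
        · -- insert it
          apply insertG hk
          change InjG (n + 1) (Function.update x k (tri m))
          apply ihq
          · exact hx.update (ok_tri hmM)
          · have := fat_ins hk hm
            omega
          · rw [tr_ins hk]
            exact hfit
          · rw [sz_ins hk hmM]
            exact hsz
          · rw [fill_ins hk (by omega)]
            exact hfill
        · by_cases hN : n + 1 + 1 ≤ 2 * M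
          · -- use fillers
            rw [min_eq_left (by omega)] at hfill
            have e1 : (M - 1) * (n + 1) = (M - 1) * n + (M - 1) := by ring
            have e2 : n + 1 - tr 0 x ≤ M - 1 := by omega
            apply insert_fillers (by omega) (n + 1 - tr 0 x) x hx (by omega)
            intro y hy g1 g2 g3 g4
            apply hstep (by omega)
            have g5 := tr_succ hy 0
            have g6 := act_pos hy (j := 0) (by omega)
            have g7 := tot_sz_sh hy 1
            rw [Finset.sum_range_one] at g7
            have g8 := tr_sh 1 0 y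
            rw [zero_add] at g8 g5
            have g9 := tot_fill_sh 1 y
            refine IH n (by omega) _ (sh 1 y) (hy.sh 1) rfl (by omega) (by omega) ?_
            rw [min_eq_left (by omega)]
            omega
          · apply multi hx hk (by omega) htr (by omega)
            intro n' hn' _ y hy htry hszy hf
            have g1 := hf GI.fill fill_shift (fun _ => rfl)
            refine IH n' hn' _ y hy rfl htry (by omega) ?_
            have h4 : (M - 1) * min n' (2 * M - 1) ≤ (M - 1) * min (n + 1) (2 * M - 1) :=
              Nat.mul_le_mul le_rfl (by omega)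
            omega

end Pool.Agent.Helper1.FG
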