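import Pool.Agent.Helper1.FG.High
import Pool.Agent.Helper1.FG.Low

/-!
# Injectivity for general fat points in degrees `d + 1 ≥ 8 M ^ 2` (MP_6ec8e4_ag)
-/

namespace Pool.Agent.Helper1.FI

open Pool.Agent.Helper1.FH

section conv

variable {ι : Type*} [Fintype ι]

lemma sum_sl {M m g : ℕ} (hm : m ≤ M) (hg : g ≤ m) : ∑ j ∈ Finset.range M, sl m g j + g = T m := by
  have h1 : ∑ j ∈ Finset.range M, sl m g j
      + ∑ j ∈ Finset.range M, (if m ≤ j + g ∧ j < m then 1 else 0) = ∑ j ∈ Finset.range M, (m - j) := by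
    rw [← Finset.sum_add_distrib]
    apply Finset.sum_congr rfl
    intro j _
    unfold sl
    split_ifs <;> omega
  have h2 : ∑ j ∈ Finset.range M, (if m ≤ j + g ∧ j < m then 1 else 0) = g := by
    rw [← Finset.card_filter]
    have h3 : (Finset.range M).filter (fun j => m ≤ j + g ∧ j < m) = Finset.Ico (m - g) m := by
      ext j
      rw [Finset.mem_filter, Finset.mem_range, Finset.mem_Ico]
      omega
    rw [h3, Nat.card_Ico]
    omega
  have h3 : ∑ j ∈ Finset.range M, (m - j) = T m := FG.sz_tri hm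
  omega

lemma ok_toG {M : ℕ} {x : Item} (h : x.ok M) : (FG.toG x).ok M := by
  cases x with
  | on m g =>
    simp only [Item.ok] at h
    refine ⟨?_, fun j => ?_⟩
    · show sl m g 0 ≤ M
      unfold sl
      split_ifs <;> omega
    · show sl m g (j + 1) ≤ sl m g j - 1
      unfold sl
      split_ifs <;> omega
  | off m => exact h

lemma sz_toG {M : ℕ} {x : Item} (h : x.ok M) : (FG.toG x).sz M = x.sz := by
  cases x with
  | on m g =>
    simp only [Item.ok] at h
    have h1 := sum_sl h.1 h.2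
    show ∑ j ∈ Finset.range M, sl m g j = T m - g
    omega
  | off m => rfl

lemma row_toG (x : Item) : (FG.toG x).row 0 = x.tr := by
  cases x with
  | on m g =>
    show sl m g 0 = if g < m then m else m - 1
    unfold sl
    split_ifs <;> omega
  | off m => rfl

lemma fill_toG (x : Item) : (FG.toG x).fill = x.fill := by
  cases x <;> rfl

lemma tot_sz_toG {M : ℕ} {x : ι → Item} (h : Ok M x) :
    FG.tot (FG.GI.sz M) (fun k => FG.toG (x k)) = tot Item.sz x :=
  Finset.sum_congr rfl (fun k _ => sz_toG (h k))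

lemma tr_toG (x : ι → Item) : FG.tr 0 (fun k => FG.toG (x k)) = tot Item.tr x :=
  Finset.sum_congr rfl (fun k _ => row_toG (x k))

lemma tot_fill_toG (x : ι → Item) :
    FG.tot FG.GI.fill (fun k => FG.toG (x k)) = tot Item.fill x :=
  Finset.sum_congr rfl (fun k _ => fill_toG (x k))

end conv

variable {ι : Type*} [Fintype ι] [DecidableEq ι]

/-- the number of conditions lost in low degrees -/
def hb (M : ℕ) : ℕ := (M - 1) * (2 * M - 1)

theorem TI {M : ℕ} (n : ℕ) (x : ι → Item) (hx : Ok M x) (htr : tot Item.tr x ≤ n)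
    (hsz : T n ≤ tot Item.sz x) (hfill : hb M ≤ tot Item.fill x) : Inj n x := by
  apply FG.inj_of_injG
  apply FG.lemI (M := M) n _ _ (fun k => ok_toG (hx k)) rfl
  · rw [tr_toG]
    exact htr
  · rw [tot_sz_toG hx]
    exact hsz
  · rw [tot_fill_toG]
    exact (Nat.mul_le_mul le_rfl (min_le_right _ _)).trans hfill

theorem TII {M : ℕ} (hM : 1 ≤ M) (n : ℕ) (x : ι → Item) (hx : Ok M x) (htr : tot Item.tr x ≤ n)
    (hsz : T n + hb M ≤ tot Item.sz x) : Inj n x := by
  apply FG.inj_of_injG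
  apply FG.lemII (M := M) hM n _ _ (fun k => ok_toG (hx k)) rfl
  · rw [tr_toG]
    exact Or.inl htr
  · rw [tot_sz_toG hx]
    exact (Nat.add_le_add le_rfl (Nat.mul_le_mul le_rfl (min_le_right _ _))).trans hsz

/-- **General fat points**: injectivity for `8 M ^ 2 ≤ n = d + 1`. -/
theorem inj8 {M n : ℕ} (hn : 8 * M ^ 2 ≤ n) {x : ι → Item} (hx : AllOff M x)
    (hsz : T n ≤ tot Item.sz x) : Inj n x := by
  rcases Nat.lt_or_ge M 2 with hM | hM
  · apply FG.inj_of_injG
    apply FG.finishing (M := M) n _ _ (fun k => ok_toG (hx.ok k)) ?_ rfl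
    · rw [tr_toG, hx.tr]
      omega
    · rw [tot_sz_toG hx.ok]
      exact hsz
    · apply Finset.sum_eq_zero
      intro k _
      obtain ⟨m, hm, hk⟩ := hx k
      simp only [hk, FG.toG, FG.GI.fat]
      split_ifs <;> omega
  · have h5 : 5 * M ^ 2 ≤ n := by
      have : 5 * M ^ 2 ≤ 8 * M ^ 2 := Nat.mul_le_mul (by norm_num) le_rfl
      omega
    apply high hM (h := hb M) (fun n x h1 _ h2 h3 h4 => TI n x h1 h2 h3 h4)
      (fun n x h1 h2 h3 => TII (by omega) n x h1 h2 h3) n h5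
    refine ⟨hx.ok, by rw [hx.tr]; omega, hsz, by rw [hx.tr, hx.act]; omega, ?_, ?_⟩
    · rw [hx.tr]
      have h2 : n ≤ M * n := Nat.le_mul_of_pos_left _ (by omega)
      omega
    · have h1 : 2 * T n ≤ W x := by
        unfold W
        omega
      have h2 : 2 * M ^ 2 * (2 * T n) ≤ 2 * M ^ 2 * W x := Nat.mul_le_mul le_rfl h1
      have h3 : 2 * M ^ 2 * (2 * T n) = 2 * (2 * M ^ 2) * T n := by ring
      obtain ⟨t, rfl⟩ : ∃ t, n = 8 * M ^ 2 + t := ⟨n - 8 * M ^ 2, by omega⟩
      obtain ⟨a, rfl⟩ : ∃ a, M = a + 2 := ⟨M - 2, by omega⟩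
      have h4 : 8 * (a + 2) ^ 2 * hb (a + 2) + (a + 2) ^ 3 + 2 * (a + 2) ^ 2 + 3 * (2 * (a + 2) ^ 2) * (8 * (a + 2) ^ 2 + t)
          ≤ (8 * (a + 2) ^ 2 + t) ^ 2 := by
        have e1 : hb (a + 2) = (a + 1) * (2 * a + 3) := by
          unfold hb
          congr 1
        rw [e1]
        have e2 : (8 * (a + 2) ^ 2 + t) ^ 2
            = 8 * (a + 2) ^ 2 * ((a + 1) * (2 * a + 3)) + (a + 2) ^ 3 + 2 * (a + 2) ^ 2
              + 3 * (2 * (a + 2) ^ 2) * (8 * (a + 2) ^ 2 + t)
              + (23 * a ^ 3 + 128 * a ^ 2 + 236 * a + 144 + 10 * (a + 2) ^ 2 * t + t ^ 2) := by ring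
        rw [e2]
        exact Nat.le_add_right _ _
      omega

end Pool.Agent.Helper1.FI
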