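import Pool.Agent.Helper1.FG.Num

/-!
# Exact steps over several rows (MP_6ec8e4_ag)
-/

namespace Pool.Agent.Helper1.FG

open Pool.Agent.Helper1.FH

variable {ι : Type*} [Fintype ι] [DecidableEq ι]

/-- `T N` is the sum of the lengths of the rows -/
lemma sum_rows {N : ℕ} : ∀ l, l ≤ N → ∑ j ∈ Finset.range l, (N - j) + T (N - l) = T N := by
  intro l
  induction l with
  | zero => intro _; simp
  | succ l ih =>
    intro hl
    have h1 := ih (by omega)
    rw [Finset.sum_range_succ]
    have h2 := T_succ (N - (l + 1))
    rw [show N - (l + 1) + 1 = N - l by omega] at h2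
    omega

/-- **Exact step over several rows**: an off-item which does not fit is specialised with pre-slices
equal to the gaps. -/
theorem multi {M N : ℕ} {x : ι → GI} (hx : Ok M x) {k : ι} {m : ℕ} (hk : x k = .off m)
    (hN : M + m ≤ N) (htr : tr 0 x ≤ N) (hfit : N < tr 0 x + m)
    (IH : ∀ n', n' < N → N ≤ n' + m → ∀ y : ι → GI, Ok M y → tr 0 y ≤ n' →
      tot (GI.sz M) y + T N = tot (GI.sz M) x + T n' →
      (∀ f : GI → ℕ, (∀ (z : GI) l, f (z.shift l) = f z) → (∀ s, f (.on s) = 0) → tot f y + f (.off m) = tot f x) →
      InjG n' y) :
    InjG N x := by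
  have hmM : m ≤ M := by
    have := hx k
    rw [hk] at this
    exact this
  have hm : 1 ≤ m := by omega
  -- the traces decrease by at least two as long as the gap is small
  have hstep : ∀ j, j ≤ m → N < tr j x + j + m → tr (j + 1) x + 2 ≤ tr j x := by
    intro j hj h1
    have h2 := tr_succ hx j
    have h3 := tr_le_act hx j
    have h4 : 2 ≤ tot (GI.act j) x := by
      by_contra h5
      have h6 : (M - j) * tot (GI.act j) x ≤ (M - j) * 1 := Nat.mul_le_mul le_rfl (by omega)
      omega
    omega
  have hgap : ∀ j, j ≤ m → (∀ i, i < j → N < tr i x + i + m) → tr j x + j + (N - tr 0 x + j) ≤ N := by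
    intro j
    induction j with
    | zero => intro _ _; omega
    | succ j ih =>
      intro hj h1
      have h2 := ih (by omega) (fun i hi => h1 i (by omega))
      have h3 := hstep j (by omega) (h1 j (by omega))
      omega
  have hex : ∃ l, tr l x + l + m ≤ N := by
    by_contra hcon
    push Not at hcon
    have h1 := hgap m le_rfl (fun i _ => hcon i)
    have h2 := hcon m
    omega
  set l := Nat.find hex with hl
  have hl1 : tr l x + l + m ≤ N := Nat.find_spec hex
  have hl2 : ∀ j, j < l → N < tr j x + j + m := by
    intro j hj
    have := Nat.find_min hex hj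
    omega
  clear_value l
  have hlm : l ≤ m := by
    by_contra h1
    have h2 := hgap m le_rfl (fun i hi => hl2 i (by omega))
    have h3 := hl2 m (by omega)
    omega
  have hl0 : 0 < l := by
    by_contra h1
    have h2 : l = 0 := by omega
    subst h2
    omega
  -- gaps
  set g : ℕ → ℕ := fun j => N - j - tr j x with hg
  have hsum : ∀ j, j ≤ l → tr j x + j + g j = N := by
    intro j hj
    have h1 := hgap j (by omega) (fun i hi => hl2 i (by omega))
    simp only [hg]
    omega
  have hgm : ∀ j, j < l → g j < m := by
    intro j hj
    have h1 := hl2 j hj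
    have h2 := hsum j hj.le
    omega
  have hg1 : ∀ j, j + 1 < l → g j + 1 ≤ g (j + 1) := by
    intro j hj
    have h1 := hstep j (by omega) (hl2 j (by omega))
    have h2 := hsum j (by omega)
    have h3 := hsum (j + 1) (by omega)
    omega
  have hmono : ∀ i j, i < j → j < l → g i + (j - i) ≤ g j := by
    intro i j hij
    induction j, hij using Nat.le_induction with
    | base =>
      intro h1
      have h2 : g i + 1 ≤ g (i + 1) := hg1 i h1
      show g i + (i + 1 - i) ≤ g (i + 1)
      omega
    | succ j hij ih =>
      intro h1
      have h2 := ih (by omega)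
      have h3 := hg1 j h1
      omega
  obtain ⟨n', hn'⟩ : ∃ n', N = n' + l := ⟨N - l, by omega⟩
  rw [hn']
  apply diffG hk g (fun j hj => (hgm j hj).le) hmono ?_ (res m l g) (fun i j hi => of_lt_res hmono hi)
  · have hok : Ok M (Function.update (fun i => (x i).shift l) k (.on (res m l g))) := by
      apply (hx.sh l).update
      refine ⟨?_, fun j => res_succ hmono j⟩
      rw [res_zero hgm hmono]
      exact hmM
    apply IH n' (by omega) (by omega) _ hok
    · have h1 := tot_update (GI.row 0) (sh l x) k (.on (res m l g))
      have h2 : (GI.on (res m l g)).row 0 = m := res_zero hgm hmono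
      have h3 : (sh l x k).row 0 = 0 := by
        simp [sh, hk, GI.shift, GI.row]
      have h4 := tr_sh l 0 x
      rw [zero_add] at h4
      unfold tr at h4 hl1 ⊢
      change tot (GI.row 0) (Function.update (sh l x) k (.on (res m l g))) ≤ n'
      omega
    · have h1 := tot_update (GI.sz M) (sh l x) k (.on (res m l g))
      have h2 : (GI.on (res m l g)).sz M + ∑ s ∈ Finset.range l, g s = T m := sum_res hgm hmono hmM
      have h3 : (sh l x k).sz M = T m := by
        simp [sh, hk, GI.shift, GI.sz]
      have h4 := tot_sz_sh hx l
      have h5 : ∑ j ∈ Finset.range l, tr j x + ∑ s ∈ Finset.range l, g s = ∑ j ∈ Finset.range l, (N - j) := by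
        rw [← Finset.sum_add_distrib]
        apply Finset.sum_congr rfl
        intro j hj
        rw [Finset.mem_range] at hj
        have := hsum j hj.le
        omega
      have h6 := sum_rows (N := N) l (by omega)
      rw [show N - l = n' by omega] at h6
      change tot (GI.sz M) (Function.update (sh l x) k (.on (res m l g))) + T N = _
      omega
    · intro f hf1 hf2
      have h1 := tot_update f (sh l x) k (.on (res m l g))
      rw [hf2] at h1
      have h2 : f (sh l x k) = f (.off m) := by
        show f ((x k).shift l) = _
        rw [hf1, hk]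
      have h3 : tot f (sh l x) = tot f x := Finset.sum_congr rfl (fun i _ => hf1 (x i) l)
      change tot f (Function.update (sh l x) k (.on (res m l g))) + _ = _
      omega
  · intro j hj
    have h1 := hsum j hj.le
    unfold tr tot at h1
    omega

end Pool.Agent.Helper1.FG
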