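import Pool.Agent.Helper1.FG.Shape

/-!
# The residual shape of a differential step (MP_6ec8e4_ag)
-/

namespace Pool.Agent.Helper1.FG

open Pool.Agent.Helper1.FH

section num

variable (m l : ℕ) (g : ℕ → ℕ)

/-- number of pre-slices of length at most `i` -/
def cnt (i : ℕ) : ℕ := ((Finset.range l).filter (fun s => g s ≤ i)).card

/-- row `j` of the residual shape, as a set -/
def rset (j : ℕ) : Finset ℕ := (Finset.range m).filter (fun i => l + j + i < m + cnt l g i)

/-- row `j` of the residual shape -/
def res (j : ℕ) : ℕ := (rset m l g j).card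

variable {m l g} (hg : ∀ j, j < l → g j < m) (hmono : ∀ i j, i < j → j < l → g i + (j - i) ≤ g j)

lemma cnt_le (i : ℕ) : cnt l g i ≤ l := by
  unfold cnt
  calc _ ≤ (Finset.range l).card := Finset.card_filter_le _ _
    _ = l := Finset.card_range l

lemma cnt_mono (i : ℕ) : cnt l g i ≤ cnt l g (i + 1) := by
  unfold cnt
  apply Finset.card_le_card
  intro s hs
  rw [Finset.mem_filter] at *
  exact ⟨hs.1, by omega⟩

lemma mem_of_lt_card {A : Finset ℕ} (h : ∀ i, i + 1 ∈ A → i ∈ A) {i : ℕ} (hi : i < A.card) : i ∈ A := by
  by_contra h1
  have h2 : ∀ a, i ≤ a → a ∉ A := by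
    intro a ha
    induction a, ha using Nat.le_induction with
    | base => exact h1
    | succ a _ ih => exact fun h3 => ih (h a h3)
  have h3 : A ⊆ Finset.range i := by
    intro a ha
    rw [Finset.mem_range]
    by_contra h4
    exact h2 a (by omega) ha
  have h4 := Finset.card_le_card h3
  rw [Finset.card_range] at h4
  omega

include hmono

lemma inj_g {i j : ℕ} (hi : i < l) (hj : j < l) (h : g i = g j) : i = j := by
  rcases Nat.lt_trichotomy i j with h1 | h1 | h1
  · have := hmono i j h1 hj
    omega
  · exact h1
  · have := hmono j i h1 hi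
    omega

lemma cnt_succ_le (i : ℕ) : cnt l g (i + 1) ≤ cnt l g i + 1 := by
  unfold cnt
  have h1 : (Finset.range l).filter (fun s => g s ≤ i + 1)
      ⊆ (Finset.range l).filter (fun s => g s ≤ i) ∪ (Finset.range l).filter (fun s => g s = i + 1) := by
    intro s hs
    rw [Finset.mem_union, Finset.mem_filter, Finset.mem_filter]
    rw [Finset.mem_filter] at hs
    rcases Nat.lt_or_ge i (g s) with h2 | h2
    · right
      exact ⟨hs.1, by omega⟩
    · left
      exact ⟨hs.1, h2⟩
  have h2 : ((Finset.range l).filter (fun s => g s = i + 1)).card ≤ 1 := by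
    rw [Finset.card_le_one]
    intro a ha b hb
    rw [Finset.mem_filter, Finset.mem_range] at ha hb
    exact inj_g hmono ha.1 hb.1 (by omega)
  have h3 := Finset.card_le_card h1
  have h4 := Finset.card_union_le ((Finset.range l).filter (fun s => g s ≤ i)) ((Finset.range l).filter (fun s => g s = i + 1))
  omega

lemma rset_lower (j i : ℕ) (h : i + 1 ∈ rset m l g j) : i ∈ rset m l g j := by
  unfold rset at *
  rw [Finset.mem_filter, Finset.mem_range] at *
  have := cnt_succ_le hmono i
  omega

lemma of_lt_res {i j : ℕ} (h : i < res m l g j) : i < m ∧ l + j + i < m + cnt l g i := by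
  have h1 := mem_of_lt_card (rset_lower hmono j) h
  unfold rset at h1
  rwa [Finset.mem_filter, Finset.mem_range] at h1

lemma res_succ (j : ℕ) : res m l g (j + 1) ≤ res m l g j - 1 := by
  by_contra hcon
  have h0 : 0 < res m l g (j + 1) := by omega
  have h1 : insert 0 ((rset m l g (j + 1)).image (fun i => i + 1)) ⊆ rset m l g j := by
    intro i hi
    rw [Finset.mem_insert, Finset.mem_image] at hi
    rcases hi with rfl | ⟨a, ha, rfl⟩
    · have h2 := of_lt_res hmono h0
      unfold rset
      rw [Finset.mem_filter, Finset.mem_range]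
      omega
    · unfold rset at *
      rw [Finset.mem_filter, Finset.mem_range] at *
      have h2 := cnt_mono (l := l) (g := g) a
      have h3 := cnt_le (l := l) (g := g) a
      omega
  have h2 := Finset.card_le_card h1
  rw [Finset.card_insert_of_notMem (by simp), Finset.card_image_of_injective _ (fun a b h => by simpa using h)] at h2
  unfold res at *
  omega

include hg

lemma cnt_gt {i : ℕ} (hi : i < m) : l + i + 1 ≤ m + cnt l g i := by
  have h1 : ((Finset.range l).filter (fun s => ¬ g s ≤ i)).card ≤ (Finset.Ioo i m).card := by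
    apply Finset.card_le_card_of_injOn g
    · intro s hs
      rw [Finset.mem_coe, Finset.mem_filter, Finset.mem_range] at hs
      rw [Finset.mem_coe, Finset.mem_Ioo]
      exact ⟨by omega, hg s hs.1⟩
    · intro a ha b hb hab
      rw [Finset.mem_coe, Finset.mem_filter, Finset.mem_range] at ha hb
      exact inj_g hmono ha.1 hb.1 hab
  have h2 := Finset.card_filter_add_card_filter_not (s := Finset.range l) (fun s => g s ≤ i)
  rw [Finset.card_range] at h2
  rw [Nat.card_Ioo] at h1
  unfold cnt
  omega

lemma res_zero : res m l g 0 = m := by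
  unfold res rset
  rw [Finset.filter_true_of_mem, Finset.card_range]
  intro i hi
  rw [Finset.mem_range] at hi
  have := cnt_gt hg hmono hi
  omega

lemma sum_res {M : ℕ} (hM : m ≤ M) :
    ∑ j ∈ Finset.range M, res m l g j + ∑ s ∈ Finset.range l, g s = T m := by
  have h1 : ∑ j ∈ Finset.range M, res m l g j = ∑ i ∈ Finset.range m, (m + cnt l g i - l - i) := by
    have h2 : ∀ j, res m l g j = ∑ i ∈ Finset.range m, if l + j + i < m + cnt l g i then 1 else 0 := by
      intro j
      unfold res rset
      rw [Finset.card_filter]
    rw [Finset.sum_congr rfl (fun j _ => h2 j), Finset.sum_comm]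
    apply Finset.sum_congr rfl
    intro i hi
    rw [Finset.mem_range] at hi
    rw [← Finset.card_filter]
    have h3 : (Finset.range M).filter (fun j => l + j + i < m + cnt l g i) = Finset.range (m + cnt l g i - l - i) := by
      ext j
      rw [Finset.mem_filter, Finset.mem_range, Finset.mem_range]
      have h4 := cnt_le (l := l) (g := g) i
      omega
    rw [h3, Finset.card_range]
  have h5 : ∑ s ∈ Finset.range l, g s = ∑ i ∈ Finset.range m, (l - cnt l g i) := by
    have h6 : ∀ s ∈ Finset.range l, g s = ∑ i ∈ Finset.range m, if ¬ g s ≤ i then 1 else 0 := by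
      intro s hs
      rw [Finset.mem_range] at hs
      rw [← Finset.card_filter]
      have h7 : (Finset.range m).filter (fun i => ¬ g s ≤ i) = Finset.range (g s) := by
        ext i
        rw [Finset.mem_filter, Finset.mem_range, Finset.mem_range]
        have := hg s hs
        omega
      rw [h7, Finset.card_range]
    rw [Finset.sum_congr rfl h6, Finset.sum_comm]
    apply Finset.sum_congr rfl
    intro i _
    rw [← Finset.card_filter]
    have h2 := Finset.card_filter_add_card_filter_not (s := Finset.range l) (fun s => g s ≤ i)
    rw [Finset.card_range] at h2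
    unfold cnt
    omega
  have h8 : ∀ a : ℕ, ∑ i ∈ Finset.range a, (a - i) = T a := by
    intro a
    induction a with
    | zero => rfl
    | succ a ih =>
      rw [Finset.sum_range_succ', T_succ, ← ih]
      simp only [Nat.sub_zero, Nat.add_sub_add_right]
  rw [h1, h5, ← Finset.sum_add_distrib, ← h8]
  apply Finset.sum_congr rfl
  intro i hi
  rw [Finset.mem_range] at hi
  have h3 := cnt_gt hg hmono hi
  have h4 := cnt_le (l := l) (g := g) i
  omega

end num

end Pool.Agent.Helper1.FG
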