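import Pool.Agent.Helper1.FG.Dif

/-!
# Combinatorics of vertically graded shapes (MP_6ec8e4_ag)
-/

namespace Pool.Agent.Helper1.FG

open Pool.Agent.Helper1.FH

/-- valid shapes: strictly decreasing slices -/
def GI.ok (M : ℕ) : GI → Prop
  | .on s => s 0 ≤ M ∧ ∀ j, s (j + 1) ≤ s j - 1
  | .off m => m ≤ M

/-- number of conditions -/
def GI.sz (M : ℕ) : GI → ℕ
  | .on s => ∑ j ∈ Finset.range M, s j
  | .off m => T m

/-- 1 if active in row `j` -/
def GI.act (j : ℕ) (x : GI) : ℕ := if 0 < x.row j then 1 else 0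

/-- 1 for general simple points -/
def GI.fill : GI → ℕ
  | .on _ => 0
  | .off m => if m = 1 then 1 else 0

/-- 1 for off-items of multiplicity at least 2 -/
def GI.fat : GI → ℕ
  | .on _ => 0
  | .off m => if 2 ≤ m then 1 else 0

lemma slice_le {M : ℕ} {s : ℕ → ℕ} (h : (GI.on s).ok M) (j : ℕ) : s j ≤ s 0 - j := by
  induction j with
  | zero => exact le_rfl
  | succ j ih =>
    have := h.2 j
    omega

lemma slice_zero {M : ℕ} {s : ℕ → ℕ} (h : (GI.on s).ok M) {j : ℕ} (hj : M ≤ j) : s j = 0 := by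
  have h1 := slice_le h j
  have h2 := h.1
  omega

lemma row_le {M : ℕ} {x : GI} (h : x.ok M) (j : ℕ) : x.row j ≤ M - j := by
  cases x with
  | on s =>
    have h1 := slice_le h j
    have h2 := h.1
    simp only [GI.row]
    omega
  | off m => simp [GI.row]

lemma row_le_act {M : ℕ} {x : GI} (h : x.ok M) (j : ℕ) : x.row j ≤ (M - j) * x.act j := by
  unfold GI.act
  split_ifs with h1
  · rw [mul_one]
    exact row_le h j
  · omega

lemma act_le_row (x : GI) (j : ℕ) : x.act j ≤ x.row j := by
  unfold GI.act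
  split_ifs <;> omega

lemma row_succ {M : ℕ} {x : GI} (h : x.ok M) (j : ℕ) : x.row (j + 1) + x.act j ≤ x.row j := by
  cases x with
  | on s =>
    have h1 := h.2 j
    simp only [GI.row, GI.act]
    split_ifs <;> omega
  | off m => simp [GI.row, GI.act]

lemma ok_shift {M : ℕ} {x : GI} (h : x.ok M) (l : ℕ) : (x.shift l).ok M := by
  cases x with
  | on s =>
    refine ⟨?_, fun j => ?_⟩
    · have h1 := slice_le h (0 + l)
      have h2 := h.1
      show s (0 + l) ≤ M
      omega
    · show s (j + 1 + l) ≤ s (j + l) - 1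
      have := h.2 (j + l)
      rwa [show j + 1 + l = j + l + 1 by ring]
  | off m => exact h

lemma row_shift (x : GI) (l j : ℕ) : (x.shift l).row j = x.row (j + l) := by
  cases x <;> rfl

lemma fill_shift (x : GI) (l : ℕ) : (x.shift l).fill = x.fill := by cases x <;> rfl
lemma fat_shift (x : GI) (l : ℕ) : (x.shift l).fat = x.fat := by cases x <;> rfl

lemma sz_shift_one {M : ℕ} {x : GI} (h : x.ok M) : (x.shift 1).sz M + x.row 0 = x.sz M := by
  cases x with
  | on s =>
    show ∑ j ∈ Finset.range M, s (j + 1) + s 0 = ∑ j ∈ Finset.range M, s j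
    have h1 := Finset.sum_range_succ s M
    have h2 := Finset.sum_range_succ' s M
    have h3 := slice_zero h (le_refl M)
    omega
  | off m => simp [GI.shift, GI.sz, GI.row]

lemma shift_succ (x : GI) (l : ℕ) : x.shift (l + 1) = (x.shift l).shift 1 := by
  cases x with
  | on s =>
    show GI.on _ = GI.on _
    congr 1
    funext j
    congr 1
    ring
  | off m => rfl

lemma sz_shift {M : ℕ} {x : GI} (h : x.ok M) (l : ℕ) :
    (x.shift l).sz M + ∑ j ∈ Finset.range l, x.row j = x.sz M := by
  induction l with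
  | zero =>
    rw [Finset.sum_range_zero, add_zero]
    cases x <;> rfl
  | succ l ih =>
    rw [Finset.sum_range_succ, shift_succ]
    have h1 := sz_shift_one (ok_shift h l)
    rw [row_shift, zero_add] at h1
    omega

/-- twice the number of conditions of an on-item is at most `s(s+1)`, `s` its trace -/
lemma sz_le_on {M : ℕ} {s : ℕ → ℕ} (h : (GI.on s).ok M) :
    2 * (GI.on s).sz M ≤ s 0 * (s 0 + 1) := by
  have h1 : ∀ a l : ℕ, 2 * ∑ j ∈ Finset.range l, (a - j) ≤ a * (a + 1) := by
    intro a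
    induction a with
    | zero =>
      intro l
      simp
    | succ a ih =>
      intro l
      rcases l with _ | l
      · simp
      · rw [Finset.sum_range_succ']
        have h2 := ih l
        have h3 : ∑ j ∈ Finset.range l, (a + 1 - (j + 1)) = ∑ j ∈ Finset.range l, (a - j) :=
          Finset.sum_congr rfl (fun j _ => by omega)
        rw [h3]
        simp only [Nat.sub_zero]
        nlinarith
  calc 2 * (GI.on s).sz M ≤ 2 * ∑ j ∈ Finset.range M, (s 0 - j) :=
        Nat.mul_le_mul le_rfl (Finset.sum_le_sum (fun j _ => slice_le h j))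
    _ ≤ _ := h1 _ _

section sums

variable {ι : Type*} [Fintype ι]

/-- total of a quantity -/
def tot (f : GI → ℕ) (x : ι → GI) : ℕ := ∑ k, f (x k)

lemma tot_le {f g : GI → ℕ} {x : ι → GI} (h : ∀ k, f (x k) ≤ g (x k)) : tot f x ≤ tot g x :=
  Finset.sum_le_sum (fun k _ => h k)

lemma tot_update [DecidableEq ι] (f : GI → ℕ) (x : ι → GI) (k : ι) (z : GI) :
    tot f (Function.update x k z) + f (x k) = tot f x + f z := by
  unfold tot
  rw [← Finset.add_sum_erase _ _ (Finset.mem_univ k), ← Finset.add_sum_erase Finset.univ (fun k => f (x k)) (Finset.mem_univ k)]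
  rw [Function.update_self]
  have h1 : ∑ l ∈ Finset.univ.erase k, f (Function.update x k z l) = ∑ l ∈ Finset.univ.erase k, f (x l) := by
    apply Finset.sum_congr rfl
    intro l hl
    rw [Function.update_of_ne (Finset.ne_of_mem_erase hl)]
  rw [h1]
  ring

/-- all items are valid -/
def Ok (M : ℕ) (x : ι → GI) : Prop := ∀ k, (x k).ok M

/-- shift of a configuration -/
def sh (l : ℕ) (x : ι → GI) : ι → GI := fun k => (x k).shift l

/-- trace of a configuration in row `j` -/
def tr (j : ℕ) (x : ι → GI) : ℕ := tot (GI.row j) x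

omit [Fintype ι] in
lemma Ok.sh {M : ℕ} {x : ι → GI} (h : Ok M x) (l : ℕ) : Ok M (sh l x) := fun k => ok_shift (h k) l

omit [Fintype ι] in
lemma Ok.update [DecidableEq ι] {M : ℕ} {x : ι → GI} (h : Ok M x) {k : ι} {z : GI} (hz : z.ok M) :
    Ok M (Function.update x k z) := by
  intro l
  by_cases hl : l = k
  · subst hl
    rwa [Function.update_self]
  · rw [Function.update_of_ne hl]
    exact h l

lemma tot_sz_sh {M : ℕ} {x : ι → GI} (h : Ok M x) (l : ℕ) :
    tot (GI.sz M) (sh l x) + ∑ j ∈ Finset.range l, tr j x = tot (GI.sz M) x := by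
  unfold tr tot sh
  rw [Finset.sum_comm, ← Finset.sum_add_distrib]
  exact Finset.sum_congr rfl (fun k _ => sz_shift (h k) l)

lemma tr_sh (l j : ℕ) (x : ι → GI) : tr j (sh l x) = tr (j + l) x :=
  Finset.sum_congr rfl (fun k _ => row_shift (x k) l j)

lemma tr_succ {M : ℕ} {x : ι → GI} (h : Ok M x) (j : ℕ) : tr (j + 1) x + tot (GI.act j) x ≤ tr j x := by
  unfold tr tot
  rw [← Finset.sum_add_distrib]
  exact Finset.sum_le_sum (fun k _ => row_succ (h k) j)

lemma tr_le_act {M : ℕ} {x : ι → GI} (h : Ok M x) (j : ℕ) : tr j x ≤ (M - j) * tot (GI.act j) x := by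
  unfold tr tot
  rw [Finset.mul_sum]
  exact Finset.sum_le_sum (fun k _ => row_le_act (h k) j)

lemma act_pos {M : ℕ} {x : ι → GI} (h : Ok M x) {j : ℕ} (h1 : 0 < tr j x) : 0 < tot (GI.act j) x := by
  have h2 := tr_le_act h j
  by_contra h3
  have h4 : tot (GI.act j) x = 0 := by omega
  rw [h4] at h2
  omega

lemma tot_fill_sh (l : ℕ) (x : ι → GI) : tot GI.fill (sh l x) = tot GI.fill x :=
  Finset.sum_congr rfl (fun k _ => fill_shift (x k) l)

lemma tot_fat_sh (l : ℕ) (x : ι → GI) : tot GI.fat (sh l x) = tot GI.fat x :=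
  Finset.sum_congr rfl (fun k _ => fat_shift (x k) l)

lemma exists_pos {f : GI → ℕ} {x : ι → GI} (h : 0 < tot f x) : ∃ k, 0 < f (x k) := by
  by_contra hcon
  have h1 : tot f x = 0 := Finset.sum_eq_zero (fun k _ => by
    by_contra h2
    exact hcon ⟨k, Nat.pos_of_ne_zero h2⟩)
  omega

lemma le_tot (f : GI → ℕ) (x : ι → GI) (k : ι) : f (x k) ≤ tot f x :=
  Finset.single_le_sum (f := fun k => f (x k)) (fun _ _ => Nat.zero_le _) (Finset.mem_univ k)

/-- without fat off-items the number of conditions is small -/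
lemma tot_sz_le {M : ℕ} {x : ι → GI} (h : Ok M x) (hf : tot GI.fat x = 0) :
    2 * tot (GI.sz M) x ≤ tr 0 x * (tr 0 x + 1) + 2 * tot GI.fill x := by
  have h1 : ∀ k, 2 * (x k).sz M ≤ (x k).row 0 * (tr 0 x + 1) + 2 * (x k).fill := by
    intro k
    have h2 := le_tot GI.fat x k
    have h3 := le_tot (GI.row 0) x k
    have h4 := h k
    cases hx : x k with
    | on s =>
      rw [hx] at h3 h4
      have h5 := sz_le_on h4
      simp only [GI.row] at h3 ⊢
      change s 0 ≤ tr 0 x at h3
      have h6 : s 0 * (s 0 + 1) ≤ s 0 * (tr 0 x + 1) := Nat.mul_le_mul le_rfl (by omega)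
      omega
    | off m =>
      rw [hx, hf] at h2
      simp only [GI.fat] at h2
      have h5 : m = 0 ∨ m = 1 := by
        by_contra h6
        simp [show 2 ≤ m by omega] at h2
      rcases h5 with rfl | rfl
      · simp [GI.sz, GI.row]
      · simp [GI.sz, GI.row, GI.fill, T]
  unfold tr tot at *
  rw [Finset.mul_sum, Finset.mul_sum, Finset.sum_mul, ← Finset.sum_add_distrib]
  exact Finset.sum_le_sum (fun k _ => h1 k)

end sums

end Pool.Agent.Helper1.FG
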